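import Pool.Agent.Y142.SU.Stm

/-!
# The first fundamental theorem for a product, from the theorems for the factors
-/

set_option autoImplicit false
set_option linter.unusedSectionVars false

open Matrix Finset
open Pool.Agent.Y142.SU (FromHerm)

namespace Pool.Agent.X274.MX

variable {F : Type} [Field F] {I : Type} [Fintype I] [DecidableEq I] {N : I → ℕ} {k : ℕ}

/-- the functions of `k` vectors -/
abbrev Fun (F : Type) {I : Type} (N : I → ℕ) (k : ℕ) : Type := (Fin k → ∀ i, Fin (N i) → F) → F

/-- products of pairings in which the variables in `A` occur, with coefficients in `T` -/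
inductive Con (J : ∀ i, Matrix (Fin (N i)) (Fin (N i)) F)
    (T : ∀ i, Set (Matrix (Fin (N i)) (Fin (N i)) F)) : Finset (Fin k) → Fun F N k → Prop
  | one : Con J T ∅ fun _ => 1
  | mul {A : Finset (Fin k)} {f : Fun F N k} (i : I) (a : Matrix (Fin (N i)) (Fin (N i)) F)
      (ha : a ∈ T i) (j j' : Fin k) (hlt : j < j') (hj : j ∉ A) (hj' : j' ∉ A) (h : Con J T A f) :
      Con J T (insert j (insert j' A)) fun v => ((a *ᵥ v j i) ⬝ᵥ J i *ᵥ v j' i) * f v

variable {J : ∀ i, Matrix (Fin (N i)) (Fin (N i)) F}

theorem Con.union {T : ∀ i, Set (Matrix (Fin (N i)) (Fin (N i)) F)} {A B : Finset (Fin k)}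
    {f g : Fun F N k} (hf : Con J T A f) (hg : Con J T B g) (h : Disjoint A B) :
    Con J T (A ∪ B) (f * g) := by
  induction hf with
  | one =>
    rw [empty_union]
    have : (fun _ => 1 : Fun F N k) * g = g := by
      funext v
      exact one_mul _
    rw [this]
    exact hg
  | @mul A f i a ha j j' hlt hj hj' hf ih =>
    rw [disjoint_insert_left, disjoint_insert_left] at h
    rw [insert_union, insert_union]
    have h1 := Con.mul i a ha j j' hlt (A := A ∪ B) (by
      rw [mem_union, not_or]
      exact ⟨hj, h.1⟩) (by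
      rw [mem_union, not_or]
      exact ⟨hj', h.2.1⟩) (ih h.2.2)
    have h2 : ((fun v => ((a *ᵥ v j i) ⬝ᵥ J i *ᵥ v j' i) * f v : Fun F N k) * g) =
        fun v => ((a *ᵥ v j i) ⬝ᵥ J i *ᵥ v j' i) * (f * g) v := by
      funext v
      exact mul_assoc _ _ _
    rw [h2]
    exact h1

/-- the space spanned by the products -/
def conSpan (J : ∀ i, Matrix (Fin (N i)) (Fin (N i)) F)
    (T : ∀ i, Set (Matrix (Fin (N i)) (Fin (N i)) F)) (A : Finset (Fin k)) :
    Submodule F (Fun F N k) := Submodule.span F {f | Con J T A f}

theorem conSpan_mul {T : ∀ i, Set (Matrix (Fin (N i)) (Fin (N i)) F)} {A B : Finset (Fin k)}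
    {f g : Fun F N k} (hf : f ∈ conSpan J T A) (hg : g ∈ conSpan J T B) (h : Disjoint A B) :
    f * g ∈ conSpan J T (A ∪ B) := by
  have h1 := Submodule.mul_mem_mul hf hg
  unfold conSpan at h1 ⊢
  rw [Submodule.span_mul_span] at h1
  refine Submodule.span_mono ?_ h1
  rintro _ ⟨f', hf', g', hg', rfl⟩
  exact Con.union hf' hg' h

/-- change of the coefficients -/
theorem con_span {T T' : ∀ i, Set (Matrix (Fin (N i)) (Fin (N i)) F)}
    (hT : ∀ i, ∀ a ∈ T i, a ∈ Submodule.span F (T' i)) {A : Finset (Fin k)} {f : Fun F N k}
    (hf : Con J T A f) : f ∈ conSpan J T' A := by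
  induction hf with
  | one => exact Submodule.subset_span Con.one
  | @mul A f i a ha j j' hlt hj hj' hf ih =>
    have h1 : ∀ a ∈ Submodule.span F (T' i),
        (fun v => ((a *ᵥ v j i) ⬝ᵥ J i *ᵥ v j' i) * f v : Fun F N k) ∈
          conSpan J T' (insert j (insert j' A)) := by
      intro a ha
      induction ha using Submodule.span_induction with
      | mem a ha =>
        let mulL : Fun F N k →ₗ[F] Fun F N k :=
          { toFun := fun f v => ((a *ᵥ v j i) ⬝ᵥ J i *ᵥ v j' i) * f v
            map_add' := fun f g => by
              funext v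
              exact mul_add _ _ _
            map_smul' := fun c f => by
              funext v
              exact mul_left_comm _ _ _ }
        have h2 : mulL f ∈ (conSpan J T' A).map mulL := Submodule.mem_map_of_mem ih
        unfold conSpan at h2
        rw [Submodule.map_span] at h2
        refine Submodule.span_mono ?_ h2
        rintro _ ⟨g, hg, rfl⟩
        exact Con.mul i a ha j j' hlt hj hj' hg
      | zero =>
        have h2 : (fun v => (((0 : Matrix (Fin (N i)) (Fin (N i)) F) *ᵥ v j i) ⬝ᵥ J i *ᵥ v j' i) *
            f v : Fun F N k) = 0 := by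
          funext v
          rw [zero_mulVec, zero_dotProduct, zero_mul]
          rfl
        rw [h2]
        exact Submodule.zero_mem _
      | add a b _ _ h3 h4 =>
        have h2 : (fun v => (((a + b) *ᵥ v j i) ⬝ᵥ J i *ᵥ v j' i) * f v : Fun F N k) =
            (fun v => ((a *ᵥ v j i) ⬝ᵥ J i *ᵥ v j' i) * f v) +
              fun v => ((b *ᵥ v j i) ⬝ᵥ J i *ᵥ v j' i) * f v := by
          funext v
          rw [add_mulVec, add_dotProduct, add_mul]
          rfl
        rw [h2]
        exact Submodule.add_mem _ h3 h4
      | smul c a _ h3 =>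
        have h2 : (fun v => (((c • a) *ᵥ v j i) ⬝ᵥ J i *ᵥ v j' i) * f v : Fun F N k) =
            c • fun v => ((a *ᵥ v j i) ⬝ᵥ J i *ᵥ v j' i) * f v := by
          funext v
          rw [smul_mulVec, smul_dotProduct, smul_eq_mul, mul_assoc]
          rfl
        rw [h2]
        exact Submodule.smul_mem _ _ h3
    exact h1 a (hT i a ha)

/-- the products of the first fundamental theorem for one factor -/
theorem con_of_prod {m : ℕ} (e : Fin m ↪o Fin k) (i : I)
    (T : ∀ i, Set (Matrix (Fin (N i)) (Fin (N i)) F)) (π : Equiv.Perm (Fin m))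
    (a : Fin m → Matrix (Fin (N i)) (Fin (N i)) F) (h1 : ∀ j, π (π j) = j) (h2 : ∀ j, π j ≠ j)
    (ha : ∀ j, a j ∈ T i) (n : ℕ) : ∀ S : Finset (Fin m), S.card ≤ n → (∀ j ∈ S, π j ∈ S) →
    Con J T (S.map e.toEmbedding) fun v : Fin k → ∀ i, Fin (N i) → F =>
      ∏ j ∈ S with j < π j, ((a j *ᵥ v (e j) i) ⬝ᵥ J i *ᵥ v (e (π j)) i) := by
  induction n with
  | zero =>
    intro S hS _
    rw [Nat.le_zero, card_eq_zero] at hS
    subst hS
    rw [map_empty]
    have : (fun v : Fin k → ∀ i, Fin (N i) → F =>
        ∏ j ∈ (∅ : Finset (Fin m)) with j < π j, ((a j *ᵥ v (e j) i) ⬝ᵥ J i *ᵥ v (e (π j)) i)) =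
        fun _ => 1 := by
      funext v
      simp
    rw [this]
    exact Con.one
  | succ n ih =>
    intro S hS hπ
    by_cases hne : ∃ j ∈ S, j < π j
    · obtain ⟨j, hj, hlt⟩ := hne
      obtain ⟨S', hS'⟩ : ∃ S' : Finset (Fin m), S' = (S.erase j).erase (π j) := ⟨_, rfl⟩
      have hjπ : π j ∈ S := hπ j hj
      have hjS' : j ∉ S' := by
        rw [hS']
        intro h
        exact (mem_erase.1 (mem_of_mem_erase h)).1 rfl
      have hπS' : π j ∉ S' := by
        rw [hS']
        exact notMem_erase _ _
      have hSe : S = insert j (insert (π j) S') := by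
        rw [hS', insert_erase (mem_erase.2 ⟨h2 j, hjπ⟩), insert_erase hj]
      have hcard : S'.card ≤ n := by
        have h5 : S.card = S'.card + 1 + 1 := by
          conv_lhs => rw [hSe]
          rw [card_insert_of_notMem, card_insert_of_notMem hπS']
          rw [mem_insert, not_or]
          exact ⟨(h2 j).symm, hjS'⟩
        omega
      have hst : ∀ l ∈ S', π l ∈ S' := by
        intro l hl
        have hl' := hl
        rw [hS', mem_erase, mem_erase] at hl' ⊢
        refine ⟨fun h => ?_, fun h => ?_, hπ l hl'.2.2⟩
        · exact hl'.2.1 (π.injective h)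
        · apply hl'.1
          rw [← h, h1]
      have h6 := ih S' hcard hst
      have h7 := Con.mul i (a j) (ha j) (e j) (e (π j)) (e.lt_iff_lt.2 hlt) (by
        intro h
        obtain ⟨l, hl, hl'⟩ := mem_map.1 h
        exact hjS' (e.injective hl' ▸ hl)) (by
        intro h
        obtain ⟨l, hl, hl'⟩ := mem_map.1 h
        exact hπS' (e.injective hl' ▸ hl)) h6
      have h8 : S.map e.toEmbedding = insert (e j) (insert (e (π j)) (S'.map e.toEmbedding)) := by
        conv_lhs => rw [hSe]
        rw [map_insert, map_insert]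
        rfl
      rw [h8]
      have h9 : (S.filter fun l => l < π l) = insert j (S'.filter fun l => l < π l) := by
        conv_lhs => rw [hSe]
        rw [filter_insert, if_pos hlt, filter_insert, if_neg]
        rw [h1]
        exact not_lt.2 hlt.le
      have h10 : (fun v : Fin k → ∀ i, Fin (N i) → F =>
          ∏ j ∈ S with j < π j, ((a j *ᵥ v (e j) i) ⬝ᵥ J i *ᵥ v (e (π j)) i)) =
          fun v => ((a j *ᵥ v (e j) i) ⬝ᵥ J i *ᵥ v (e (π j)) i) *
            ∏ j ∈ S' with j < π j, ((a j *ᵥ v (e j) i) ⬝ᵥ J i *ᵥ v (e (π j)) i) := by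
        funext v
        rw [h9, prod_insert]
        rw [mem_filter, not_and_or]
        exact Or.inl hjS'
      rw [h10]
      exact h7
    · -- no pairs: the set is empty
      have hS0 : S = ∅ := by
        by_contra h
        obtain ⟨j, hj⟩ := nonempty_iff_ne_empty.2 h
        rcases lt_trichotomy j (π j) with h3 | h3 | h3
        · exact hne ⟨j, hj, h3⟩
        · exact h2 j h3.symm
        · exact hne ⟨π j, hπ j hj, by rw [h1]; exact h3⟩
      subst hS0
      exact ih ∅ (by simp) (by simp)

/-- multilinear in the variables of `A`, independent of the other variables -/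
structure ML (A : Finset (Fin k)) (f : Fun F N k) : Prop where
  add : ∀ j ∈ A, ∀ v x y, f (Function.update v j (x + y)) =
    f (Function.update v j x) + f (Function.update v j y)
  smul : ∀ j ∈ A, ∀ v (c : F) x, f (Function.update v j (c • x)) = c * f (Function.update v j x)
  indep : ∀ j ∉ A, ∀ v x, f (Function.update v j x) = f v

theorem ML.const {f : Fun F N k} (h : ML ∅ f) (v w : Fin k → ∀ i, Fin (N i) → F) : f v = f w := by
  classical
  have h1 : ∀ S : Finset (Fin k), f (S.piecewise v w) = f w := by
    intro S
    induction S using Finset.induction_on with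
    | empty => rw [piecewise_empty]
    | insert j S hj ih =>
      rw [piecewise_insert, h.indep j (notMem_empty j), ih]
  have h2 := h1 univ
  rwa [piecewise_univ] at h2

section slice

variable (i : I) (B : Finset (Fin k))

/-- the vectors in the variables of `B` are replaced -/
noncomputable def comb (u : Fin B.card → Fin (N i) → F) (v : Fin k → ∀ i, Fin (N i) → F) :
    Fin k → ∀ i, Fin (N i) → F := fun j =>
  if h : j ∈ B then Pi.single i (u ((B.orderIsoOfFin rfl).symm ⟨j, h⟩)) else v j

theorem comb_mem (u : Fin B.card → Fin (N i) → F) (v : Fin k → ∀ i, Fin (N i) → F)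
    (l : Fin B.card) : comb i B u v (B.orderEmbOfFin rfl l) = Pi.single i (u l) := by
  unfold comb
  rw [dif_pos (B.orderEmbOfFin_mem rfl l)]
  congr 2
  have : (⟨B.orderEmbOfFin rfl l, B.orderEmbOfFin_mem rfl l⟩ : B) = B.orderIsoOfFin rfl l := rfl
  rw [this, OrderIso.symm_apply_apply]

theorem comb_notMem (u : Fin B.card → Fin (N i) → F) (v : Fin k → ∀ i, Fin (N i) → F)
    {j : Fin k} (hj : j ∉ B) : comb i B u v j = v j := by
  unfold comb
  rw [dif_neg hj]

theorem exists_ind {j : Fin k} (hj : j ∈ B) : ∃ l, B.orderEmbOfFin rfl l = j := by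
  refine ⟨(B.orderIsoOfFin rfl).symm ⟨j, hj⟩, ?_⟩
  have : B.orderEmbOfFin rfl ((B.orderIsoOfFin rfl).symm ⟨j, hj⟩) =
      (B.orderIsoOfFin rfl ((B.orderIsoOfFin rfl).symm ⟨j, hj⟩) : Fin k) := rfl
  rw [this, OrderIso.apply_symm_apply]

theorem comb_update_left (u : Fin B.card → Fin (N i) → F) (v : Fin k → ∀ i, Fin (N i) → F)
    (l : Fin B.card) (x : Fin (N i) → F) : comb i B (Function.update u l x) v =
      Function.update (comb i B u v) (B.orderEmbOfFin rfl l) (Pi.single i x) := by
  funext j
  by_cases hj : j ∈ B
  · obtain ⟨l', rfl⟩ := exists_ind B hj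
    rw [comb_mem]
    by_cases hl : l' = l
    · subst hl
      rw [Function.update_self, Function.update_self]
    · rw [Function.update_of_ne hl, Function.update_of_ne, comb_mem]
      exact fun h => hl ((B.orderEmbOfFin rfl).injective h)
  · rw [comb_notMem i B _ _ hj, Function.update_of_ne, comb_notMem i B _ _ hj]
    rintro rfl
    exact hj (B.orderEmbOfFin_mem rfl l)

theorem comb_update_right (u : Fin B.card → Fin (N i) → F) (v : Fin k → ∀ i, Fin (N i) → F)
    {j : Fin k} (hj : j ∉ B) (x : ∀ i, Fin (N i) → F) : comb i B u (Function.update v j x) =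
      Function.update (comb i B u v) j x := by
  funext l
  by_cases hl : l ∈ B
  · obtain ⟨l', rfl⟩ := exists_ind B hl
    rw [comb_mem, Function.update_of_ne, comb_mem]
    rintro rfl
    exact hj hl
  · rw [comb_notMem i B _ _ hl]
    by_cases h : l = j
    · subst h
      rw [Function.update_self, Function.update_self]
    · rw [Function.update_of_ne h, Function.update_of_ne h, comb_notMem i B _ _ hl]

theorem comb_update_mem (u : Fin B.card → Fin (N i) → F) (v : Fin k → ∀ i, Fin (N i) → F)
    {j : Fin k} (hj : j ∈ B) (x : ∀ i, Fin (N i) → F) : comb i B u (Function.update v j x) =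
      comb i B u v := by
  funext l
  by_cases hl : l ∈ B
  · obtain ⟨l', rfl⟩ := exists_ind B hl
    rw [comb_mem, comb_mem]
  · rw [comb_notMem i B _ _ hl, comb_notMem i B _ _ hl, Function.update_of_ne]
    rintro rfl
    exact hl hj

/-- the function of the variables in `B` -/
noncomputable def slice {A : Finset (Fin k)} {f : Fun F N k} (hf : ML A f) (hB : B ⊆ A)
    (v : Fin k → ∀ i, Fin (N i) → F) :
    MultilinearMap F (fun _ : Fin B.card => Fin (N i) → F) F where
  toFun u := f (comb i B u v)
  map_update_add' := by
    intro inst u l x y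
    have : inst = instDecidableEqFin _ := Subsingleton.elim _ _
    subst this
    rw [comb_update_left, comb_update_left, comb_update_left, Pi.single_add,
      hf.add _ (hB (B.orderEmbOfFin_mem rfl l))]
  map_update_smul' := by
    intro inst u l c x
    have : inst = instDecidableEqFin _ := Subsingleton.elim _ _
    subst this
    rw [comb_update_left, comb_update_left, Pi.single_smul,
      hf.smul _ (hB (B.orderEmbOfFin_mem rfl l))]
    rfl

theorem slice_apply {A : Finset (Fin k)} {f : Fun F N k} (hf : ML A f) (hB : B ⊆ A)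
    (v : Fin k → ∀ i, Fin (N i) → F) (u : Fin B.card → Fin (N i) → F) :
    slice i B hf hB v u = f (comb i B u v) := rfl

end slice

/-- coordinates in a subspace, extended to the whole space -/
theorem exists_coords {M : Type} [AddCommGroup M] [Module F M] [FiniteDimensional F M]
    (G : Submodule F M) : ∃ (d : ℕ) (b : Fin d → M) (lam : Fin d → M →ₗ[F] F), (∀ t, b t ∈ G) ∧
      ∀ ψ ∈ G, ψ = ∑ t, lam t ψ • b t := by
  let b := Module.finBasis F G
  obtain ⟨P, hP⟩ := LinearMap.exists_leftInverse_of_injective G.subtype
    (LinearMap.ker_eq_bot.2 G.injective_subtype)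
  refine ⟨Module.finrank F G, fun t => (b t : M), fun t => b.coord t ∘ₗ P, fun t => (b t).2,
    fun ψ hψ => ?_⟩
  have h1 : P ψ = ⟨ψ, hψ⟩ := LinearMap.congr_fun hP ⟨ψ, hψ⟩
  have h3 : ((∑ t, b.repr (P ψ) t • b t : G) : M) = (P ψ : M) := by rw [b.sum_repr (P ψ)]
  rw [Submodule.coe_sum] at h3
  have h4 : (P ψ : M) = ψ := by rw [h1]
  rw [h4] at h3
  exact h3.symm

/-- the functions to which the induction applies -/
structure Good (s : ∀ i, Set (Matrix (Fin (N i)) (Fin (N i)) F)) (c : Fin k → I) (S : Finset I)
    (f : Fun F N k) : Prop where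
  ml : ML (univ.filter fun j => c j ∈ S) f
  comp : ∀ v, f v = f fun j => Pi.single (c j) (v j (c j))
  kill : ∀ i ∈ S, ∀ X ∈ s i, ∀ v, ∑ j with c j = i,
    f (Function.update v j (Pi.single i (X *ᵥ v j i))) = 0

/-- **The first fundamental theorem for a product**, for one type of variables -/
theorem fft_type {s : ∀ i, Set (Matrix (Fin (N i)) (Fin (N i)) F)}
    {𝒞 : ∀ i, Subalgebra F (Matrix (Fin (N i)) (Fin (N i)) F)}
    (hfft : ∀ i, ∀ m ≤ k, ∀ ψ : MultilinearMap F (fun _ : Fin m => Fin (N i) → F) F,
      (∀ X ∈ s i, ∀ v : Fin m → Fin (N i) → F,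
        ∑ j, ψ (Function.update v j (X *ᵥ v j)) = 0) → (fun v => ψ v) ∈ FromHerm (J i) (𝒞 i) m)
    (c : Fin k → I) (S : Finset I) : ∀ f : Fun F N k, Good s c S f →
      f ∈ conSpan J (fun i => (𝒞 i : Set (Matrix (Fin (N i)) (Fin (N i)) F)))
        (univ.filter fun j => c j ∈ S) := by
  classical
  induction S using Finset.induction_on with
  | empty =>
    intro f hf
    have h0 : (univ.filter fun j => c j ∈ (∅ : Finset I)) = (∅ : Finset (Fin k)) := by
      ext j
      simp
    have h1 := hf.ml
    rw [h0] at h1 ⊢
    have h2 : f = f 0 • fun _ => (1 : F) := by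
      funext v
      rw [h1.const v 0]
      simp
    rw [h2]
    exact Submodule.smul_mem _ _ (Submodule.subset_span Con.one)
  | insert i S hi ih =>
    intro f hf
    obtain ⟨B, hB⟩ : ∃ B : Finset (Fin k), B = univ.filter fun j => c j = i := ⟨_, rfl⟩
    obtain ⟨A, hA⟩ : ∃ A : Finset (Fin k), A = univ.filter fun j => c j ∈ S := ⟨_, rfl⟩
    have hmB : ∀ j, j ∈ B ↔ c j = i := fun j => by rw [hB, mem_filter]; simp
    have hmA : ∀ j, j ∈ A ↔ c j ∈ S := fun j => by rw [hA, mem_filter]; simp
    have hAB : (univ.filter fun j => c j ∈ insert i S) = A ∪ B := by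
      ext j
      rw [mem_union, hmA, hmB, mem_filter, mem_insert, or_comm]
      simp
    have hdis : Disjoint A B := by
      rw [Finset.disjoint_left]
      intro j hj hj'
      rw [hmA] at hj
      rw [hmB] at hj'
      rw [hj'] at hj
      exact hi hj
    have hml := hf.ml
    rw [hAB] at hml ⊢
    have hBs : B ⊆ A ∪ B := subset_union_right
    have hcard : B.card ≤ k := by
      have := card_le_univ B
      rwa [Fintype.card_fin] at this
    -- the slices
    obtain ⟨e, he⟩ : ∃ e : Fin B.card ↪o Fin k, e = B.orderEmbOfFin rfl := ⟨_, rfl⟩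
    have hemap : (univ : Finset (Fin B.card)).map e.toEmbedding = B := by
      ext j
      rw [mem_map]
      constructor
      · rintro ⟨l, _, rfl⟩
        rw [he]
        exact B.orderEmbOfFin_mem rfl l
      · intro hj
        obtain ⟨l, hl⟩ := exists_ind B hj
        exact ⟨l, mem_univ _, by rw [he]; exact hl⟩
    have hsum : ∀ g : Fin k → F, ∑ j ∈ B, g j = ∑ l, g (e l) := by
      intro g
      conv_lhs => rw [← hemap]
      rw [sum_map]
      rfl
    have hfrom : ∀ v, (fun u => slice i B hml hBs v u) ∈ FromHerm (J i) (𝒞 i) B.card := by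
      intro v
      refine hfft i B.card hcard (slice i B hml hBs v) fun X hX u => ?_
      have h1 := hf.kill i (mem_insert_self i S) X hX (comb i B u v)
      rw [← hB, hsum] at h1
      rw [← h1]
      refine sum_congr rfl fun l _ => ?_
      rw [slice_apply, comb_update_left]
      show f (Function.update (comb i B u v) (B.orderEmbOfFin rfl l) (Pi.single i (X *ᵥ u l))) =
        f (Function.update (comb i B u v) (e l) (Pi.single i (X *ᵥ comb i B u v (e l) i)))
      rw [he, comb_mem, Pi.single_eq_same]
    -- the space of the first fundamental theorem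
    let M := MultilinearMap F (fun _ : Fin B.card => Fin (N i) → F) F
    let ev : M →ₗ[F] ((Fin B.card → Fin (N i) → F) → F) :=
      { toFun := fun ψ u => ψ u
        map_add' := fun _ _ => rfl
        map_smul' := fun _ _ => rfl }
    let Gm : Submodule F M := (FromHerm (J i) (𝒞 i) B.card).comap ev
    have hfinM : FiniteDimensional F M := inferInstanceAs (Module.Finite F
      (MultilinearMap F (fun _ : Fin B.card => Fin (N i) → F) F))
    obtain ⟨d, b, lam, hbG, hlam⟩ := exists_coords Gm
    -- the decomposition
    have hdec : f = ∑ t, (fun v => lam t (slice i B hml hBs v)) *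
        fun v => b t fun l => v (e l) i := by
      funext v
      have h1 : f v = slice i B hml hBs v fun l => v (e l) i := by
        rw [slice_apply, hf.comp v, hf.comp (comb i B _ v)]
        congr 1
        funext j
        by_cases hj : j ∈ B
        · obtain ⟨l, hl⟩ := exists_ind B hj
          have hcj := (hmB j).1 hj
          subst hl
          rw [comb_mem, he]
          subst hcj
          rw [Pi.single_eq_same]
        · rw [comb_notMem i B _ _ hj]
      rw [h1]
      have hmem : slice i B hml hBs v ∈ Gm := hfrom v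
      conv_lhs => rw [hlam (slice i B hml hBs v) hmem]
      rw [_root_.sum_apply, Finset.sum_apply]
      rfl
    rw [hdec]
    refine Submodule.sum_mem _ fun t _ => ?_
    refine conSpan_mul ?_ ?_ hdis
    · have ih2 : ∀ f, Good s c S f → f ∈ conSpan J
          (fun i => (𝒞 i : Set (Matrix (Fin (N i)) (Fin (N i)) F))) A := by
        rw [hA]
        exact ih
      refine ih2 _ ⟨⟨?_, ?_, ?_⟩, ?_, ?_⟩
      · intro j hj v x y
        rw [← hA] at hj
        have hjB : j ∉ B := Finset.disjoint_left.1 hdis hj
        show lam t _ = lam t _ + lam t _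
        rw [← map_add]
        congr 1
        refine MultilinearMap.ext fun u => ?_
        rw [_root_.add_apply, slice_apply, slice_apply, slice_apply,
          comb_update_right i B _ _ hjB, comb_update_right i B _ _ hjB,
          comb_update_right i B _ _ hjB, hml.add j (mem_union_left _ hj)]
      · intro j hj v a x
        rw [← hA] at hj
        have hjB : j ∉ B := Finset.disjoint_left.1 hdis hj
        show lam t _ = a * lam t _
        rw [← smul_eq_mul, ← map_smul]
        congr 1
        refine MultilinearMap.ext fun u => ?_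
        rw [_root_.smul_apply, slice_apply, slice_apply, comb_update_right i B _ _ hjB,
          comb_update_right i B _ _ hjB, hml.smul j (mem_union_left _ hj), smul_eq_mul]
      · intro j hj v x
        rw [← hA] at hj
        show lam t _ = lam t _
        congr 1
        refine MultilinearMap.ext fun u => ?_
        rw [slice_apply, slice_apply]
        by_cases hjB : j ∈ B
        · rw [comb_update_mem i B _ _ hjB]
        · rw [comb_update_right i B _ _ hjB, hml.indep j (by
            rw [mem_union, not_or]
            exact ⟨hj, hjB⟩)]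
      · intro v
        show lam t _ = lam t _
        congr 1
        refine MultilinearMap.ext fun u => ?_
        rw [slice_apply, slice_apply, hf.comp, hf.comp (comb i B u _)]
        congr 1
        funext j
        by_cases hj : j ∈ B
        · obtain ⟨l, hl⟩ := exists_ind B hj
          subst hl
          rw [comb_mem, comb_mem]
        · rw [comb_notMem i B _ _ hj, comb_notMem i B _ _ hj, Pi.single_eq_same]
      · intro i' hi' X hX v
        have hne : i' ≠ i := fun h => hi (h ▸ hi')
        show ∑ j with c j = i', lam t _ = 0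
        rw [← map_sum]
        have h1 : ∑ j with c j = i',
            slice i B hml hBs (Function.update v j (Pi.single i' (X *ᵥ v j i'))) = 0 := by
          refine MultilinearMap.ext fun u => ?_
          rw [_root_.sum_apply, _root_.zero_apply,
            ← hf.kill i' (mem_insert_of_mem hi') X hX (comb i B u v)]
          refine sum_congr rfl fun j hj => ?_
          rw [mem_filter] at hj
          have hjB : j ∉ B := by
            rw [hmB, hj.2]
            exact hne
          rw [slice_apply, comb_update_right i B _ _ hjB, comb_notMem i B _ _ hjB]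
        rw [h1, map_zero]
    · -- the factor which depends on the variables in `B`
      have h1 : b t ∈ Gm := hbG t
      obtain ⟨pull, hpull⟩ : ∃ pull : ((Fin B.card → Fin (N i) → F) → F) →ₗ[F] Fun F N k,
          ∀ g v, pull g v = g fun l => v (e l) i :=
        ⟨{ toFun := fun g v => g fun l => v (e l) i
           map_add' := fun _ _ => rfl
           map_smul' := fun _ _ => rfl }, fun _ _ => rfl⟩
      have h2 : pull (ev (b t)) ∈ (FromHerm (J i) (𝒞 i) B.card).map pull :=
        Submodule.mem_map_of_mem h1
      have h3 : (fun v => b t fun l => v (e l) i) = pull (ev (b t)) := by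
        funext v
        rw [hpull]
        rfl
      rw [h3]
      unfold FromHerm at h2
      rw [Submodule.map_span] at h2
      refine Submodule.span_mono ?_ h2
      rintro _ ⟨g, ⟨π, a, hπ1, hπ2, ha, hg⟩, rfl⟩
      have h4 := con_of_prod (J := J) e i
        (fun i => (𝒞 i : Set (Matrix (Fin (N i)) (Fin (N i)) F))) π a hπ1 hπ2 ha _ univ le_rfl
        (fun _ _ => mem_univ _)
      rw [hemap] at h4
      have h5 : pull g = fun v : Fin k → ∀ i, Fin (N i) → F =>
          ∏ j with j < π j, ((a j *ᵥ v (e j) i) ⬝ᵥ J i *ᵥ v (e (π j)) i) := by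
        funext v
        rw [hpull, hg]
      rw [h5]
      exact h4

/-- **The first fundamental theorem for a product** -/
theorem fft_prod {s : ∀ i, Set (Matrix (Fin (N i)) (Fin (N i)) F)}
    {𝒞 : ∀ i, Subalgebra F (Matrix (Fin (N i)) (Fin (N i)) F)}
    (hfft : ∀ i, ∀ m ≤ k, ∀ ψ : MultilinearMap F (fun _ : Fin m => Fin (N i) → F) F,
      (∀ X ∈ s i, ∀ v : Fin m → Fin (N i) → F,
        ∑ j, ψ (Function.update v j (X *ᵥ v j)) = 0) → (fun v => ψ v) ∈ FromHerm (J i) (𝒞 i) m)
    (φ : MultilinearMap F (fun _ : Fin k => ∀ i, Fin (N i) → F) F)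
    (hφ : ∀ i, ∀ X ∈ s i, ∀ v, ∑ j, φ (Function.update v j (Pi.single i (X *ᵥ v j i))) = 0) :
    (fun v => φ v) ∈ conSpan J (fun i => (𝒞 i : Set (Matrix (Fin (N i)) (Fin (N i)) F)))
      (univ : Finset (Fin k)) := by
  classical
  have h1 : (fun v => φ v) = ∑ c : Fin k → I, fun v => φ fun j => Pi.single (c j) (v j (c j)) := by
    funext v
    rw [Finset.sum_apply]
    have h2 : v = fun j => ∑ i, Pi.single i (v j i) := by
      funext j
      exact (Finset.univ_sum_single (v j)).symm
    conv_lhs => rw [h2]
    rw [MultilinearMap.map_sum]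
  rw [h1]
  refine Submodule.sum_mem _ fun c _ => ?_
  have hu : (univ.filter fun j : Fin k => c j ∈ (univ : Finset I)) = univ := by
    ext j
    simp
  have h2 := fft_type (J := J) hfft c univ (fun v => φ fun j => Pi.single (c j) (v j (c j)))
  rw [hu] at h2
  have hup : ∀ (v : Fin k → ∀ i, Fin (N i) → F) (j : Fin k) (x : ∀ i, Fin (N i) → F),
      (fun l => (Pi.single (c l) (Function.update v j x l (c l)) : ∀ i, Fin (N i) → F)) =
        Function.update (fun l => Pi.single (c l) (v l (c l))) j (Pi.single (c j) (x (c j))) := by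
    intro v j x
    funext l
    by_cases hl : l = j
    · subst hl
      rw [Function.update_self, Function.update_self]
    · rw [Function.update_of_ne hl, Function.update_of_ne hl]
  refine h2 ⟨⟨?_, ?_, ?_⟩, ?_, ?_⟩
  · intro j _ v x y
    simp only [hup]
    rw [Pi.add_apply, Pi.single_add, MultilinearMap.map_update_add]
  · intro j _ v a x
    simp only [hup]
    rw [Pi.smul_apply, Pi.single_smul, MultilinearMap.map_update_smul, smul_eq_mul]
  · intro j hj
    exact absurd (by rw [hu]; exact mem_univ j) hj
  · intro v
    show φ _ = φ _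
    congr 1
    funext j
    simp only [Pi.single_eq_same]
  · intro i _ X hX v
    rw [← hφ i X hX fun j => Pi.single (c j) (v j (c j))]
    symm
    rw [← Finset.sum_subset (s₁ := univ.filter fun j => c j = i) (filter_subset _ _)]
    · refine sum_congr rfl fun j hj => ?_
      rw [mem_filter] at hj
      simp only [hup]
      obtain ⟨-, rfl⟩ := hj
      rw [Pi.single_eq_same, Pi.single_eq_same]
    · intro j _ hj
      have hj' : i ≠ c j := by
        intro h
        apply hj
        rw [mem_filter]
        exact ⟨mem_univ _, h.symm⟩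
      rw [Pi.single_eq_of_ne hj', mulVec_zero, Pi.single_zero, MultilinearMap.map_update_zero]

end Pool.Agent.X274.MX
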