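import Pool.Agent.X274.MX.Lift
import Pool.Agent.Y100.ZS.Tenss
import Pool.Agent.Y664.ZS.Opens

/-!
# Forms on a product invariant under the isometries in an open subgroup
-/

set_option autoImplicit false
set_option linter.unusedSectionVars false

open Matrix Filter Topology
open Pool.Agent.Y142.ZO Pool.Agent.Y142.ZI Pool.Agent.Y142.ZS
open Pool.Agent.X274.PR
open Pool.Agent.Y708.ZO (dq rho_tendsto rho_inv_tendsto)

namespace Pool.Agent.X274.MX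

section comm

variable {ℓ : ℕ} [Fact ℓ.Prime] {N : ℕ} {G : Type} [Group G]
  (ρ : G →* Matrix (Fin N) (Fin N) ℚ_[ℓ])

/-- brackets of tangent vectors are tangent to sequences of commutators -/
theorem tangent_comm {X Y : Matrix (Fin N) (Fin N) ℚ_[ℓ]} (hX : IsTangent ℓ ρ X)
    (hY : IsTangent ℓ ρ Y) : ∃ a b : ℕ → G, Tendsto (fun n : ℕ => ((ℓ : ℚ_[ℓ]) ^ n)⁻¹ •
      (ρ (a n * b n * (a n)⁻¹ * (b n)⁻¹) - 1)) atTop (𝓝 (X * Y - Y * X)) := by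
  obtain ⟨σ, hσ⟩ := hX
  obtain ⟨τ, hτ⟩ := hY
  have hρσ := rho_tendsto ρ hσ
  have hρτ := rho_tendsto ρ hτ
  have hiσ := rho_inv_tendsto ρ hρσ
  have hiτ := rho_inv_tendsto ρ hρτ
  have t1 : Tendsto (fun m : ℕ => m / 2) atTop atTop := Nat.tendsto_div_const_atTop (by norm_num)
  have t2 : Tendsto (fun m : ℕ => m - m / 2) atTop atTop :=
    tendsto_atTop_mono (fun m => by omega) t1
  refine ⟨fun m => σ (m / 2), fun m => τ (m - m / 2), ?_⟩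
  have h1 := (((Tendsto.mul (hσ.comp t1) (hτ.comp t2)).sub
    (Tendsto.mul (hτ.comp t2) (hσ.comp t1))).mul (hiσ.comp t1)).mul (hiτ.comp t2)
  rw [mul_one, mul_one] at h1
  refine h1.congr fun m => ?_
  simp only [Function.comp_apply]
  obtain ⟨a, ha⟩ : ∃ a, a = σ (m / 2) := ⟨_, rfl⟩
  obtain ⟨b, hb⟩ : ∃ b, b = τ (m - m / 2) := ⟨_, rfl⟩
  rw [← ha, ← hb]
  have e1 : ρ b * ρ a * ρ a⁻¹ * ρ b⁻¹ = 1 := by
    rw [← map_mul, ← map_mul, ← map_mul]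
    have : b * a * a⁻¹ * b⁻¹ = 1 := by group
    rw [this, map_one]
  have e2 : ρ (a * b * a⁻¹ * b⁻¹) = ρ a * ρ b * ρ a⁻¹ * ρ b⁻¹ := by
    rw [map_mul, map_mul, map_mul]
  have e3 : ((ℓ : ℚ_[ℓ]) ^ m)⁻¹ = ((ℓ : ℚ_[ℓ]) ^ (m / 2))⁻¹ * ((ℓ : ℚ_[ℓ]) ^ (m - m / 2))⁻¹ := by
    rw [← mul_inv, ← pow_add]
    congr 2
    omega
  rw [e2, e3]
  have e4 : ρ a * ρ b * ρ a⁻¹ * ρ b⁻¹ - 1 =
      ((ρ a - 1) * (ρ b - 1) - (ρ b - 1) * (ρ a - 1)) * ρ a⁻¹ * ρ b⁻¹ := by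
    have e5 : (ρ a - 1) * (ρ b - 1) - (ρ b - 1) * (ρ a - 1) = ρ a * ρ b - ρ b * ρ a := by
      noncomm_ring
    rw [e5, sub_mul, sub_mul, e1]
  rw [e4]
  generalize ρ a - 1 = A
  generalize ρ b - 1 = B
  generalize ((ℓ : ℚ_[ℓ]) ^ (m / 2))⁻¹ = c
  generalize ((ℓ : ℚ_[ℓ]) ^ (m - m / 2))⁻¹ = d
  rw [smul_mul_smul_comm, smul_mul_smul_comm, mul_comm d c, ← smul_sub, smul_mul_assoc,
    smul_mul_assoc]

end comm

section inv

variable {ℓ : ℕ} [Fact ℓ.Prime] {Γ : Type} [Group Γ] [TopologicalSpace Γ] [IsTopologicalGroup Γ]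
  [CompactSpace Γ] {I : Type} [Fintype I] [DecidableEq I] {N : I → ℕ}

theorem inv_mixed (ρ : ∀ i, Γ →* Matrix (Fin (N i)) (Fin (N i)) ℚ_[ℓ])
    (J : ∀ i, Matrix (Fin (N i)) (Fin (N i)) ℚ_[ℓ])
    (hsim : ∀ i g, ∃ c : ℚ_[ℓ], Sim (J i) (ρ i g) c)
    {X Y : ∀ i, Matrix (Fin (N i)) (Fin (N i)) ℚ_[ℓ]} (hX : IsTangent ℓ (bigRep ρ) (big X))
    (hY : IsTangent ℓ (bigRep ρ) (big Y)) {k : ℕ}
    (φ : MultilinearMap ℚ_[ℓ] (fun _ : Fin k => ∀ i, Fin (N i) → ℚ_[ℓ]) ℚ_[ℓ])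
    (U : Subgroup Γ) (hU : IsOpen (U : Set Γ))
    (hφ : ∀ σ ∈ U, (∀ i, (ρ i σ)ᵀ * J i * ρ i σ = J i) →
      ∀ v, φ (fun j i => ρ i σ *ᵥ v j i) = φ v)
    (v : Fin k → ∀ i, Fin (N i) → ℚ_[ℓ]) :
    ∑ j, φ (Function.update v j fun i => (X i * Y i - Y i * X i) *ᵥ v j i) = 0 := by
  obtain ⟨a, b, hab⟩ := tangent_comm (bigRep ρ) hX hY
  let Φ : MultilinearMap ℚ_[ℓ] (fun _ : Fin k => Fin (tot N) → ℚ_[ℓ]) ℚ_[ℓ] :=
    φ.compLinearMap fun _ => (dec ℚ_[ℓ] N).toLinearMap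
  have hΦ : ∀ w, Φ w = φ fun j => dec ℚ_[ℓ] N (w j) := fun _ => rfl
  have hiso : ∀ γ, (∀ i, (ρ i γ)ᵀ * J i * ρ i γ = J i) ↔
      (bigRep ρ γ)ᵀ * big J * bigRep ρ γ = big J := by
    intro γ
    rw [bigRep_apply, big_transpose, ← big_mul, ← big_mul]
    constructor
    · intro h
      congr 1
      funext i
      exact h i
    · intro h i
      exact congrFun (big_inj h) i
  have hcomm : ∀ n, (bigRep ρ (a n * b n * (a n)⁻¹ * (b n)⁻¹))ᵀ * big J *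
      bigRep ρ (a n * b n * (a n)⁻¹ * (b n)⁻¹) = big J := by
    intro n
    rw [← hiso]
    intro i
    exact Pool.Agent.Y664.ZS.comm_mem (hsim i) (a n) (b n)
  have h := Pool.Agent.Y100.ZS.inv_tanS hcomm hab Φ U hU (fun σ hσ h w => by
    rw [hΦ, hΦ]
    refine Eq.trans ?_ (hφ σ hσ ((hiso σ).2 h) _)
    congr 1
    funext j i
    rw [bigRep_apply, dec_mulVec]) (fun j => (dec ℚ_[ℓ] N).symm (v j))
  rw [← h]
  refine Finset.sum_congr rfl fun j _ => ?_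
  rw [hΦ]
  congr 1
  funext l
  by_cases hl : l = j
  · subst hl
    rw [Function.update_self, Function.update_self]
    funext i
    have h1 : big X * big Y - big Y * big X =
        big fun i => X i * Y i - Y i * X i := by
      rw [← big_mul, ← big_mul, sub_eq_add_neg, ← big_neg, ← big_add]
      congr 1
      funext i
      simp only [Pi.add_apply, Pi.neg_apply, Pi.mul_apply, sub_eq_add_neg]
    rw [h1, dec_mulVec, LinearEquiv.apply_symm_apply]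
  · rw [Function.update_of_ne hl, Function.update_of_ne hl, LinearEquiv.apply_symm_apply]

end inv

end Pool.Agent.X274.MX
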