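import Pool.Agent.X274.MX.Gour
import Pool.Agent.X274.MX.Inv
import Pool.Agent.X274.MX.Fft
import Pool.Agent.Y142.SV.Fin
import Pool.Agent.Y142.SU.Top

/-!
# The conclusions at one prime, for a family of motives of mixed weights and types
-/

set_option autoImplicit false
set_option linter.style.haveILetI false
set_option linter.unusedSectionVars false

open Matrix Polynomial Filter Topology
open Pool.Agent.Y142.ZO Pool.Agent.Y142.ZI
open Pool.Agent.Y142.ZS (Sim Generic S_TANS)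
open Pool.Agent.Y142.SU
open Pool.Agent.Y142.SV
open Pool.Agent.Y142.SI (GoodEnd)
open Pool.Agent.X274.PR

namespace Pool.Agent.X274.MX

section one

variable {ℓ : ℕ} [Fact ℓ.Prime] {N : ℕ} {Γ : Type} [Group Γ] [TopologicalSpace Γ]
  [IsTopologicalGroup Γ] [CompactSpace Γ]

/-- the three properties of one motive -/
structure Nice (n : ℕ) (real : Prop) (ρ : Γ →* Matrix (Fin N) (Fin N) ℚ_[ℓ])
    (J : Matrix (Fin N) (Fin N) ℚ_[ℓ]) (𝒞 : Subalgebra ℚ_[ℓ] (Matrix (Fin N) (Fin N) ℚ_[ℓ])) :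
    Prop where
  tan : ∀ X, SULie J 𝒞 X → IsTangent ℓ ρ X
  perf : ∀ X, SULie J 𝒞 X → X ∈ Submodule.span ℚ_[ℓ] {Z : Matrix (Fin N) (Fin N) ℚ_[ℓ] |
    ∃ Y ∈ {X | SULie J 𝒞 X}, ∃ Y' ∈ {X | SULie J 𝒞 X}, Z = Y * Y' - Y' * Y}
  fft : ∀ k, (k < n ∨ (real ∧ Jᵀ = -J)) →
    ∀ φ : MultilinearMap ℚ_[ℓ] (fun _ : Fin k => Fin N → ℚ_[ℓ]) ℚ_[ℓ],
    (∀ X, SULie J 𝒞 X → ∀ v : Fin k → Fin N → ℚ_[ℓ],
      ∑ j, φ (Function.update v j (X *ᵥ v j)) = 0) → (fun v => φ v) ∈ FromHerm J 𝒞 k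

/-- for selfadjoint coefficients the condition on the traces is automatic -/
theorem suLie_of_lieV {J : Matrix (Fin N) (Fin N) ℚ_[ℓ]}
    {𝒞 : Subalgebra ℚ_[ℓ] (Matrix (Fin N) (Fin N) ℚ_[ℓ])} (hH : Selfadj J 𝒞)
    {X : Matrix (Fin N) (Fin N) ℚ_[ℓ]} (hX : LieV J 𝒞 X) : SULie J 𝒞 X := by
  refine ⟨hX.1, hX.2, fun A hA => ?_⟩
  have hdet : IsUnit J.det := isUnit_iff_ne_zero.2 hH.2.1
  have h1 : (X * A)ᵀ * J = -(J * (X * A)) := by
    have h2 : Xᵀ * J = -(J * X) := eq_neg_of_add_eq_zero_left hX.2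
    rw [transpose_mul, mul_assoc, h2, mul_neg, ← mul_assoc, hH.2.2.2 A hA, mul_assoc, hX.1 A hA]
  have h3 : (X * A)ᵀ = -(J * (X * A) * J⁻¹) := by
    calc (X * A)ᵀ = (X * A)ᵀ * J * J⁻¹ := by
          rw [mul_assoc, Matrix.mul_nonsing_inv _ hdet, mul_one]
      _ = _ := by rw [h1, neg_mul]
  have h4 : (X * A).trace = -(X * A).trace := by
    conv_lhs => rw [← Matrix.trace_transpose, h3, Matrix.trace_neg, Matrix.trace_mul_comm,
      ← mul_assoc, Matrix.nonsing_inv_mul _ hdet, one_mul]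
  have h5 : (2 : ℚ_[ℓ]) * (X * A).trace = 0 := by linear_combination h4
  exact (mul_eq_zero.1 h5).resolve_left two_ne_zero

/-- selfadjoint coefficients -/
theorem nice_real (hTAN : S_TAN) (hTANS : S_TANS) (hDCT : S_DCT) (hLIEV : S_LIEV)
    (hFFTDV : S_FFTDV) (hPERFV : S_PERFV) (hCOEF : S_COEF)
    (ρ : Γ →* Matrix (Fin N) (Fin N) ℚ_[ℓ]) (hρ : Continuous ρ)
    (E : IntermediateField ℚ (AlgebraicClosure ℚ)) (hfin : FiniteDimensional ℚ E) (n : ℕ)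
    (hn : 0 < n)
    (ε : E →+* Matrix (Fin N) (Fin N) ℚ_[ℓ]) (hε : ∀ (a : E) (γ : Γ), ε a * ρ γ = ρ γ * ε a)
    (htr : ∀ a : E, (ε a).trace = (n : ℚ_[ℓ]) * ((Algebra.trace ℚ E a : ℚ) : ℚ_[ℓ]))
    (J : Matrix (Fin N) (Fin N) ℚ_[ℓ]) (hJ : Jᵀ = J ∨ Jᵀ = -J) (hdet : J.det ≠ 0)
    (hsim : ∀ g, ∃ c : ℚ_[ℓ], Sim J (ρ g) c)
    (hεJ : ∀ a, (ε a)ᵀ * J = J * ε a) (hgood : GoodEnd ℓ E ρ ε)
    (τ : Γ) (c : ℚ_[ℓ]) (hc : c ≠ 0) (hτ : Sim J (ρ τ) c) (hsep : (ρ τ).charpoly.Separable)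
    (hgen : Generic (ρ τ).charpoly c) (real : Prop) :
    Nice n real ρ J (Algebra.adjoin ℚ_[ℓ] (Set.range ε)) := by
  obtain ⟨hcomm, hred, hspan, htrace⟩ := hCOEF ℓ N n E hfin hn ε htr
  have hH := selfadj_of hJ hdet ε hcomm hεJ
  obtain ⟨𝔤, h𝔤, hbr, hconj, -⟩ := hTAN ℓ N Γ ρ
  set 𝒞 := Algebra.adjoin ℚ_[ℓ] (Set.range ε) with h𝒞
  have hCρ : ∀ A ∈ 𝒞, ∀ γ, A * ρ γ = ρ γ * A := by
    intro A hA γ
    induction hA using Algebra.adjoin_induction with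
    | mem x hx =>
      obtain ⟨a, rfl⟩ := hx
      exact hε a γ
    | algebraMap r => exact Algebra.commutes r _
    | add x y _ _ hx hy => rw [add_mul, mul_add, hx, hy]
    | mul x y _ _ hx hy => rw [mul_assoc, hy, ← mul_assoc, hx, mul_assoc]
  have hdct := hDCT ℓ N Γ ρ hρ 𝒞 fun U hU =>
    ⟨fun X hX => Algebra.span_le_adjoin _ _ ((hgood U hU).1 X hX), (hgood U hU).2⟩
  have hset : {Y | IsTangent ℓ ρ Y} = (𝔤 : Set (Matrix (Fin N) (Fin N) ℚ_[ℓ])) := by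
    ext Y
    exact (h𝔤 Y).symm
  rw [hset] at hdct
  have hinv : (ρ τ)⁻¹ = ρ τ⁻¹ := by
    apply Matrix.inv_eq_left_inv
    rw [← map_mul, inv_mul_cancel, map_one]
  have hsk : ∀ Z ∈ 𝔤, ∃ μ : ℚ_[ℓ], Zᵀ * J + J * Z = μ • J := fun Z hZ =>
    hTANS ℓ N Γ ρ J hdet hsim Z ((h𝔤 Z).1 hZ)
  have hcm : ∀ A ∈ 𝒞, ∀ Z ∈ 𝔤, A * Z = Z * A := fun A hA Z hZ =>
    comm_tangent (hCρ A hA) ((h𝔤 Z).1 hZ)
  have hfull : ∀ X, LieV J 𝒞 X → IsTangent ℓ ρ X := by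
    intro X hX
    rw [← h𝔤]
    refine hLIEV ℓ N J (ρ τ) c 𝔤 𝒞 hH hc hτ hsep hgen hsk hbr ?_ (fun A hA => hCρ A hA τ) hcm hdct
      X hX
    intro Z hZ
    rw [hinv]
    exact hconj τ Z hZ
  -- the algebra generated by the skew elements
  have hle : Algebra.adjoin ℚ_[ℓ] (𝔤 : Set (Matrix (Fin N) (Fin N) ℚ_[ℓ])) ≤
      Algebra.adjoin ℚ_[ℓ] {Y | LieV J 𝒞 Y} := by
    refine Algebra.adjoin_le ?_
    intro Z hZ
    obtain ⟨μ, hμ⟩ := hsk Z hZ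
    have h1 : LieV J 𝒞 (Z - (μ / 2) • (1 : Matrix (Fin N) (Fin N) ℚ_[ℓ])) := by
      refine ⟨fun A hA => ?_, ?_⟩
      · rw [sub_mul, mul_sub, hcm A hA Z hZ, smul_mul_assoc, mul_smul_comm, one_mul, mul_one]
      · rw [transpose_sub, transpose_smul, transpose_one, sub_mul, mul_sub, smul_mul_assoc,
          mul_smul_comm, one_mul, mul_one]
        have h2 : Zᵀ * J - (μ / 2) • J + (J * Z - (μ / 2) • J) =
            (Zᵀ * J + J * Z) - ((μ / 2) • J + (μ / 2) • J) := by abel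
        rw [h2, hμ, ← add_smul, add_halves, sub_self]
    have h3 : Z = (Z - (μ / 2) • (1 : Matrix (Fin N) (Fin N) ℚ_[ℓ])) +
        algebraMap ℚ_[ℓ] (Matrix (Fin N) (Fin N) ℚ_[ℓ]) (μ / 2) := by
      rw [Algebra.algebraMap_eq_smul_one, sub_add_cancel]
    rw [SetLike.mem_coe, h3]
    exact Subalgebra.add_mem _ (Algebra.subset_adjoin h1) (Subalgebra.algebraMap_mem _ _)
  refine ⟨fun X hX => hfull X ⟨hX.1, hX.2.1⟩, fun X hX => ?_, fun k hk φ hφ => ?_⟩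
  · refine Submodule.span_mono ?_ (hPERFV ℚ_[ℓ] N J 𝒞 hH hred (fun X hX => hle (hdct X hX)) X
      ⟨hX.1, hX.2.1⟩)
    rintro Z ⟨Y, Y', hY, hY', rfl⟩
    exact ⟨Y, suLie_of_lieV hH hY, Y', suLie_of_lieV hH hY', rfl⟩
  · exact hFFTDV ℓ N n J 𝒞 hH hred htrace k φ (hk.imp id fun h => h.2) fun X hX v =>
      hφ X (suLie_of_lieV hH hX) v

/-- coefficients with a nontrivial involution -/
theorem nice_unitary (hTAN : S_TAN) (hTANS : S_TANS) (hDCT : S_DCT) (hLIEU : S_LIEU)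
    (hFFTD : S_FFTD) (hPERF : S_PERF) (hINVU : S_INVU) (hCOEF : S_COEF)
    (ρ : Γ →* Matrix (Fin N) (Fin N) ℚ_[ℓ]) (hρ : Continuous ρ)
    (E : IntermediateField ℚ (AlgebraicClosure ℚ)) (hfin : FiniteDimensional ℚ E) (n : ℕ)
    (hn : 0 < n)
    (ε : E →+* Matrix (Fin N) (Fin N) ℚ_[ℓ]) (hε : ∀ (a : E) (γ : Γ), ε a * ρ γ = ρ γ * ε a)
    (htr : ∀ a : E, (ε a).trace = (n : ℚ_[ℓ]) * ((Algebra.trace ℚ E a : ℚ) : ℚ_[ℓ]))
    (J : Matrix (Fin N) (Fin N) ℚ_[ℓ]) (hJ : Jᵀ = J ∨ Jᵀ = -J) (hdet : J.det ≠ 0)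
    (hsim : ∀ g, ∃ c : ℚ_[ℓ], Sim J (ρ g) c) (bar : E →+* E) (hbar : ∃ a, bar a ≠ a)
    (hεJ : ∀ a, (ε a)ᵀ * J = J * ε (bar a)) (hgood : GoodEnd ℓ E ρ ε)
    (τ : Γ) (c : ℚ_[ℓ]) (hc : c ≠ 0) (hτ : Sim J (ρ τ) c) (hsep : (ρ τ).charpoly.Separable)
    (hgen : Generic (ρ τ).charpoly c) (real : Prop) (hreal : ¬ real) :
    Nice n real ρ J (Algebra.adjoin ℚ_[ℓ] (Set.range ε)) := by
  obtain ⟨hcomm, hred, hspan, htrace⟩ := hCOEF ℓ N n E hfin hn ε htr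
  have hH := herm_of hJ hdet ε hcomm bar hbar hεJ
  have h := local_SU hTAN hTANS hDCT hLIEU hFFTD hINVU hCOEF ρ hρ E hfin n hn ε hε htr J hJ hdet
    hsim bar hbar hεJ hgood τ c hc hτ hsep hgen
  refine ⟨h.1, fun X hX => ?_, fun k hk φ hφ => ?_⟩
  · refine Submodule.span_mono ?_ (hPERF ℚ_[ℓ] N J _ hH hred X hX)
    rintro Z ⟨Y, Y', hY, hY', rfl⟩
    exact ⟨Y, hY, Y', hY', rfl⟩
  · rcases hk with hk | hk
    · exact hFFTD ℓ N n J _ hH hred htrace k φ hk hφ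
    · exact absurd hk.1 hreal

end one

section mixed

variable {ℓ : ℕ} [Fact ℓ.Prime] {Γ : Type} [Group Γ] [TopologicalSpace Γ] [IsTopologicalGroup Γ]
  [CompactSpace Γ] {I : Type} [Fintype I] [DecidableEq I] {N n : I → ℕ} {real : I → Prop}

/-- the conclusions at one prime -/
theorem local_mixed (ρ : ∀ i, Γ →* Matrix (Fin (N i)) (Fin (N i)) ℚ_[ℓ])
    (hρ : ∀ i, Continuous (ρ i))
    (J : ∀ i, Matrix (Fin (N i)) (Fin (N i)) ℚ_[ℓ])
    (𝒞 : ∀ i, Subalgebra ℚ_[ℓ] (Matrix (Fin (N i)) (Fin (N i)) ℚ_[ℓ]))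
    (hsim : ∀ i g, ∃ c : ℚ_[ℓ], Sim (J i) (ρ i g) c)
    (hnice : ∀ i, Nice (n i) (real i) (ρ i) (J i) (𝒞 i))
    (hdis : ∀ i j, i ≠ j → ∃ τ : Γ, (ρ i τ).charpoly.Separable ∧
      ∀ x y z u : AlgebraicClosure ℚ_[ℓ], aeval x (ρ i τ).charpoly = 0 →
        aeval y (ρ i τ).charpoly = 0 → aeval z (ρ j τ).charpoly = 0 →
        aeval u (ρ j τ).charpoly = 0 → x ≠ y → x * u ≠ z * y) :
    (∀ X : ∀ i, Matrix (Fin (N i)) (Fin (N i)) ℚ_[ℓ], (∀ i, SULie (J i) (𝒞 i) (X i)) →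
      IsTangent ℓ (bigRep ρ) (big X)) ∧
    ∀ (k : ℕ), (∀ i, k < n i ∨ (real i ∧ (J i)ᵀ = -J i)) →
      ∀ (φ : MultilinearMap ℚ_[ℓ] (fun _ : Fin k => ∀ i, Fin (N i) → ℚ_[ℓ]) ℚ_[ℓ])
      (U : Subgroup Γ), IsOpen (U : Set Γ) →
      (∀ σ ∈ U, (∀ i, (ρ i σ)ᵀ * J i * ρ i σ = J i) →
        ∀ v, φ (fun j i => ρ i σ *ᵥ v j i) = φ v) →
      (fun v => φ v) ∈ conSpan J (fun i => (𝒞 i : Set (Matrix (Fin (N i)) (Fin (N i)) ℚ_[ℓ])))
        (Finset.univ : Finset (Fin k)) := by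
  classical
  obtain ⟨𝔱, h𝔱, hbr, hconj, -⟩ := Pool.Agent.Y708.ZO.t ℓ _ Γ (bigRep ρ)
  obtain ⟨𝔤, h𝔤⟩ : ∃ 𝔤 : Submodule ℚ_[ℓ] (∀ i, Matrix (Fin (N i)) (Fin (N i)) ℚ_[ℓ]),
      ∀ Z, Z ∈ 𝔤 ↔ big Z ∈ 𝔱 :=
    ⟨𝔱.comap bigHom.toLinearMap, fun Z => Iff.rfl⟩
  have hgt : ∀ Z, Z ∈ 𝔤 ↔ IsTangent ℓ (bigRep ρ) (big Z) := fun Z => by rw [h𝔤, h𝔱]
  have hbr' : ∀ X ∈ 𝔤, ∀ Y ∈ 𝔤, (fun i => X i * Y i - Y i * X i) ∈ 𝔤 := by
    intro X hX Y hY
    rw [h𝔤] at hX hY ⊢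
    have h := hbr _ hX _ hY
    rw [← big_mul, ← big_mul, sub_eq_add_neg, ← big_neg, ← big_add, ← sub_eq_add_neg] at h
    exact h
  have hinv : ∀ i τ, (ρ i τ)⁻¹ = ρ i τ⁻¹ := by
    intro i τ
    apply Matrix.inv_eq_left_inv
    rw [← map_mul, inv_mul_cancel, map_one]
  have hdet : ∀ i τ, (ρ i τ).det ≠ 0 := by
    intro i τ h
    have h1 : ρ i τ * ρ i τ⁻¹ = 1 := by rw [← map_mul, mul_inv_cancel, map_one]
    have h2 := congrArg Matrix.det h1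
    rw [det_mul, h, zero_mul, det_one] at h2
    exact zero_ne_one h2
  have hconj' : ∀ τ, ∀ Z ∈ 𝔤, (fun i => ρ i τ * Z i * (ρ i τ)⁻¹) ∈ 𝔤 := by
    intro τ Z hZ
    rw [h𝔤] at hZ ⊢
    have h := hconj τ _ hZ
    rw [bigRep_apply, bigRep_apply, ← big_mul, ← big_mul] at h
    have h2 : (fun i => ρ i τ * Z i * (ρ i τ)⁻¹) =
        (fun i => ρ i τ) * Z * fun i => ρ i τ⁻¹ := by
      funext i
      simp only [Pi.mul_apply, hinv]
    rw [h2]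
    exact h
  have hgo := gour 𝔤 hbr' (fun i => {X | SULie (J i) (𝒞 i) X})
    (fun i X hX => by
      obtain ⟨Z, hZ, hZX⟩ := lift ρ hρ i ((hnice i).tan X hX)
      exact ⟨Z, (hgt Z).2 hZ, hZX⟩)
    (fun i X hX => (hnice i).perf X hX)
    (fun i j hij => by
      obtain ⟨τ, h1, h2⟩ := hdis i j hij
      exact gour_pair 𝔤 hbr' (fun i => ρ i τ) (hconj' τ) i j h1 (hdet i τ) (hdet j τ) h2)
  have hsingle : ∀ i X, SULie (J i) (𝒞 i) X → Pi.single i X ∈ 𝔤 := by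
    intro i X hX
    obtain ⟨Z, hZ, h1, h2⟩ := hgo i (Finset.univ.erase i) (Finset.notMem_erase _ _) X hX
    have h3 : Pi.single i X = Z := by
      funext j
      by_cases hj : j = i
      · subst hj
        rw [Pi.single_eq_same, h1]
      · rw [Pi.single_eq_of_ne hj, h2 j (Finset.mem_erase.2 ⟨hj, Finset.mem_univ _⟩)]
    rw [h3]
    exact hZ
  refine ⟨fun X hX => ?_, fun k hk φ U hU hφ => ?_⟩
  · rw [← hgt]
    have h : X = ∑ i, Pi.single i (X i) := (Finset.univ_sum_single X).symm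
    rw [h]
    exact Submodule.sum_mem _ fun i _ => hsingle i (X i) (hX i)
  · refine fft_prod (s := fun i => {X | SULie (J i) (𝒞 i) X}) ?_ φ ?_
    · intro i m hm ψ hψ
      refine (hnice i).fft m ?_ ψ fun X hX v => hψ X hX v
      exact (hk i).imp (fun h => lt_of_le_of_lt hm h) id
    · intro i X hX v
      have key : ∀ X ∈ Submodule.span ℚ_[ℓ] {Z : Matrix (Fin (N i)) (Fin (N i)) ℚ_[ℓ] |
          ∃ Y ∈ {X | SULie (J i) (𝒞 i) X}, ∃ Y' ∈ {X | SULie (J i) (𝒞 i) X},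
            Z = Y * Y' - Y' * Y},
          ∑ j, φ (Function.update v j (Pi.single i (X *ᵥ v j i))) = 0 := by
        intro X hX
        induction hX using Submodule.span_induction with
        | mem Z hZ =>
          obtain ⟨Y, hY, Y', hY', rfl⟩ := hZ
          have h1 := inv_mixed ρ J hsim ((hgt _).1 (hsingle i Y hY)) ((hgt _).1 (hsingle i Y' hY'))
            φ U hU hφ v
          rw [← h1]
          refine Finset.sum_congr rfl fun j _ => ?_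
          congr 2
          funext l
          by_cases hl : l = i
          · subst hl
            rw [Pi.single_eq_same, Pi.single_eq_same, Pi.single_eq_same]
          · rw [Pi.single_eq_of_ne hl, Pi.single_eq_of_ne hl, Pi.single_eq_of_ne hl, zero_mul,
              sub_self, zero_mulVec]
        | zero =>
          refine Finset.sum_eq_zero fun j _ => ?_
          rw [zero_mulVec, Pi.single_zero, MultilinearMap.map_update_zero]
        | add X Y _ _ h1 h2 =>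
          have h3 : ∀ j, φ (Function.update v j (Pi.single i ((X + Y) *ᵥ v j i))) =
              φ (Function.update v j (Pi.single i (X *ᵥ v j i))) +
                φ (Function.update v j (Pi.single i (Y *ᵥ v j i))) := by
            intro j
            rw [add_mulVec, Pi.single_add, MultilinearMap.map_update_add]
          rw [Finset.sum_congr rfl fun j _ => h3 j, Finset.sum_add_distrib, h1, h2, add_zero]
        | smul c X _ h1 =>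
          have h3 : ∀ j, φ (Function.update v j (Pi.single i ((c • X) *ᵥ v j i))) =
              c * φ (Function.update v j (Pi.single i (X *ᵥ v j i))) := by
            intro j
            rw [smul_mulVec, Pi.single_smul, MultilinearMap.map_update_smul, smul_eq_mul]
          rw [Finset.sum_congr rfl fun j _ => h3 j, ← Finset.mul_sum, h1, mul_zero]
      exact key X ((hnice i).perf X hX)

end mixed

end Pool.Agent.X274.MX
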