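import Mathlib
import Pool.Agent.Y929.ZS.Root

/-!
# A Goursat lemma for Lie algebras which are stable under a semisimple element

Let `𝔤` be a Lie algebra of families of matrices, stable under the conjugation with a family `g` of
matrices. If no quotient of different eigenvalues of `g i` is a quotient of eigenvalues of `g j`, then for
`Z, W ∈ 𝔤` there is an element of `𝔤` with the components `[Z i, W i]` at `i` and `0` at `j`.
-/

set_option autoImplicit false
set_option linter.unusedSectionVars false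

open Matrix Polynomial
open scoped Kronecker Pointwise

namespace Pool.Agent.X274.MX

section ad

variable {F : Type} [Field F] {n : ℕ}

/-- the conjugation with `g` -/
noncomputable def ad (g : Matrix (Fin n) (Fin n) F) : Module.End F (Matrix (Fin n) (Fin n) F) :=
  LinearMap.mulLeft F g * LinearMap.mulRight F g⁻¹

theorem ad_apply (g X : Matrix (Fin n) (Fin n) F) : ad g X = g * X * g⁻¹ := by
  unfold ad
  rw [Module.End.mul_apply, LinearMap.mulLeft_apply, LinearMap.mulRight_apply, mul_assoc]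

theorem aeval_mulLeft (g : Matrix (Fin n) (Fin n) F) (p : F[X]) :
    aeval (LinearMap.mulLeft F g) p = LinearMap.mulLeft F (aeval g p) := by
  induction p using Polynomial.induction_on' with
  | add p q hp hq =>
    rw [map_add, map_add, hp, hq]
    ext1 X
    simp [add_mul]
  | monomial k a =>
    rw [aeval_monomial, aeval_monomial, LinearMap.pow_mulLeft]
    ext1 X
    simp [Algebra.algebraMap_eq_smul_one]

theorem aeval_mulRight (g : Matrix (Fin n) (Fin n) F) (p : F[X]) :
    aeval (LinearMap.mulRight F g) p = LinearMap.mulRight F (aeval g p) := by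
  induction p using Polynomial.induction_on' with
  | add p q hp hq =>
    rw [map_add, map_add, hp, hq]
    ext1 X
    simp [mul_add]
  | monomial k a =>
    rw [aeval_monomial, aeval_monomial, LinearMap.pow_mulRight]
    ext1 X
    simp [Algebra.algebraMap_eq_smul_one]

theorem inv_poly {g : Matrix (Fin n) (Fin n) F} (hd : g.det ≠ 0) : ∃ q : F[X], aeval g q = g⁻¹ := by
  have h0 : g.charpoly.coeff 0 ≠ 0 := by
    intro h
    apply hd
    rw [Matrix.det_eq_sign_charpoly_coeff, h, mul_zero]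
  have h1 := Matrix.aeval_self_charpoly g
  rw [← divX_mul_X_add g.charpoly, map_add, map_mul, aeval_X, aeval_C] at h1
  refine ⟨C (-(g.charpoly.coeff 0)⁻¹) * g.charpoly.divX, ?_⟩
  rw [map_mul, aeval_C]
  symm
  refine Matrix.inv_eq_left_inv ?_
  have h2 : aeval g g.charpoly.divX * g = -algebraMap F _ (g.charpoly.coeff 0) :=
    eq_neg_of_add_eq_zero_left h1
  rw [mul_assoc, h2, map_neg, neg_mul_neg, ← map_mul, inv_mul_cancel₀ h0, map_one]

theorem ad_ss [CharZero F] {g : Matrix (Fin n) (Fin n) F} (hd : g.det ≠ 0)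
    (hs : g.charpoly.Separable) : (ad g).IsSemisimple := by
  have h1 : Module.End.IsSemisimple (LinearMap.mulLeft F g) :=
    Module.End.isSemisimple_of_squarefree_aeval_eq_zero hs.squarefree (by
      rw [aeval_mulLeft, Matrix.aeval_self_charpoly]
      ext1 X
      simp)
  have h2 : Module.End.IsSemisimple (LinearMap.mulRight F g) :=
    Module.End.isSemisimple_of_squarefree_aeval_eq_zero hs.squarefree (by
      rw [aeval_mulRight, Matrix.aeval_self_charpoly]
      ext1 X
      simp)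
  obtain ⟨q, hq⟩ := inv_poly hd
  have h3 : Module.End.IsSemisimple (LinearMap.mulRight F g⁻¹) := by
    rw [← hq, ← aeval_mulRight]
    exact h2.aeval q
  exact Module.End.IsSemisimple.mul_of_commute (LinearMap.commute_mulLeft_right _ _) h1 h3

/-- the eigenvalues of the conjugation are the quotients of the eigenvalues -/
theorem root_ad {L : Type} [Field L] [IsAlgClosed L] [Algebra F L] {g : Matrix (Fin n) (Fin n) F}
    (hd : g.det ≠ 0) {a : L} (ha : aeval a (minpoly F (ad g)) = 0) :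
    ∃ x y : L, aeval x g.charpoly = 0 ∧ aeval y g.charpoly = 0 ∧ x = a * y := by
  classical
  obtain ⟨K, hK⟩ : ∃ K : Matrix (Fin n × Fin n) (Fin n × Fin n) F, K = (g⁻¹)ᵀ ⊗ₖ g := ⟨_, rfl⟩
  have hKv : ∀ X : Matrix (Fin n) (Fin n) F, K *ᵥ vec X = vec (ad g X) := by
    intro X
    rw [hK, kronecker_mulVec_vec, transpose_transpose, ad_apply]
  have hKp : ∀ (p : F[X]) (X : Matrix (Fin n) (Fin n) F),
      (aeval K p) *ᵥ vec X = vec (aeval (ad g) p X) := by
    intro p
    induction p using Polynomial.induction_on with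
    | C b =>
      intro X
      rw [aeval_C, aeval_C, Algebra.algebraMap_eq_smul_one, Algebra.algebraMap_eq_smul_one,
        smul_mulVec, one_mulVec, LinearMap.smul_apply, Module.End.one_apply, vec_smul]
    | add p q hp hq =>
      intro X
      rw [map_add, map_add, add_mulVec, hp, hq, LinearMap.add_apply, vec_add]
    | monomial m b h =>
      intro X
      rw [pow_succ, ← mul_assoc, map_mul (aeval K) (C b * Polynomial.X ^ m) Polynomial.X,
        map_mul (aeval (ad g)) (C b * Polynomial.X ^ m) Polynomial.X, aeval_X, aeval_X,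
        ← mulVec_mulVec, hKv, h, Module.End.mul_apply]
  have hmin : minpoly F (ad g) ∣ K.charpoly := by
    refine minpoly.dvd F _ ?_
    ext1 X
    have h := hKp K.charpoly X
    rw [Matrix.aeval_self_charpoly, zero_mulVec] at h
    rw [LinearMap.zero_apply]
    exact vec_eq_zero_iff.1 h.symm
  have h1 : aeval a K.charpoly = 0 := by
    obtain ⟨c, hc⟩ := hmin
    rw [hc, map_mul, ha, zero_mul]
  have h2 : (scalar (Fin n × Fin n) a - K.map (algebraMap F L)).det = 0 := by
    rw [← Matrix.eval_charpoly, Matrix.charpoly_map, Polynomial.eval_map_algebraMap]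
    exact h1
  obtain ⟨v, hv0, hv⟩ := Matrix.exists_mulVec_eq_zero_iff.2 h2
  obtain ⟨X, rfl⟩ := (vec_bijective (m := Fin n) (n := Fin n) (R := L)).2 v
  obtain ⟨G, hG⟩ : ∃ G : Matrix (Fin n) (Fin n) L, G = g.map (algebraMap F L) := ⟨_, rfl⟩
  obtain ⟨G', hG'⟩ : ∃ G' : Matrix (Fin n) (Fin n) L, G' = (g⁻¹).map (algebraMap F L) := ⟨_, rfl⟩
  have hGG : G' * G = 1 := by
    rw [hG, hG', ← Matrix.map_mul, Matrix.nonsing_inv_mul _ (isUnit_iff_ne_zero.2 hd),
      Matrix.map_one _ (map_zero _) (map_one _)]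
  have hKL : K.map (algebraMap F L) = G'ᵀ ⊗ₖ G := by
    ext ⟨i, j⟩ ⟨k, l⟩
    rw [hK, hG, hG']
    simp [Matrix.kroneckerMap_apply]
  have hX0 : X ≠ 0 := fun h => hv0 (by rw [h]; exact vec_zero)
  have h3 : G * X * G' = a • X := by
    rw [hKL, sub_mulVec, kronecker_mulVec_vec, transpose_transpose, sub_eq_zero] at hv
    rw [← vec_inj, ← hv, vec_smul]
    ext i
    simp [scalar_apply, mulVec_diagonal]
  have h4 : G * X = X * (a • G) := by
    have h5 : G * X * G' * G = (a • X) * G := by rw [h3]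
    rw [mul_assoc, hGG, mul_one, smul_mul_assoc] at h5
    rw [h5, mul_smul_comm]
  have h5 : ∀ p : L[X], aeval G p * X = X * aeval (a • G) p := by
    intro p
    induction p using Polynomial.induction_on with
    | C b => rw [aeval_C, aeval_C, Algebra.commutes]
    | add p q hp hq => rw [map_add, map_add, add_mul, mul_add, hp, hq]
    | monomial m b h =>
      rw [pow_succ, ← mul_assoc, map_mul (aeval G) (C b * Polynomial.X ^ m) Polynomial.X,
        map_mul (aeval (a • G)) (C b * Polynomial.X ^ m) Polynomial.X, aeval_X, aeval_X, mul_assoc,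
        h4, ← mul_assoc, h, mul_assoc]
  have hn : 0 < n := by
    rcases Nat.eq_zero_or_pos n with h | h
    · subst h
      exact absurd (Subsingleton.elim X 0) hX0
    · exact h
  have h6 : ¬ IsUnit (aeval (a • G) G.charpoly) := by
    intro hu
    have h7 := h5 G.charpoly
    rw [Matrix.aeval_self_charpoly, zero_mul] at h7
    obtain ⟨u, hu⟩ := hu
    apply hX0
    rw [← hu] at h7
    have h8 : (0 : Matrix (Fin n) (Fin n) L) * ((u⁻¹ : (Matrix (Fin n) (Fin n) L)ˣ) :
        Matrix (Fin n) (Fin n) L) = X * (u : Matrix (Fin n) (Fin n) L) *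
        ((u⁻¹ : (Matrix (Fin n) (Fin n) L)ˣ) : Matrix (Fin n) (Fin n) L) := by rw [← h7]
    rw [zero_mul, mul_assoc, Units.mul_inv, mul_one] at h8
    exact h8.symm
  have h7 : (0 : L) ∈ spectrum L (aeval (a • G) G.charpoly) := by
    rw [spectrum.zero_mem_iff]
    exact h6
  rw [spectrum.map_polynomial_aeval_of_degree_pos] at h7
  · obtain ⟨x, hx, hx0⟩ := h7
    have hx0' : G.charpoly.IsRoot x := hx0
    have ha0 : a ≠ 0 := by
      rintro rfl
      have h9 : spectrum L ((0 : L) • G) = {0} := by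
        have : Nontrivial (Matrix (Fin n) (Fin n) L) := ⟨X, 0, hX0⟩
        rw [zero_smul]
        exact spectrum.zero_eq
      rw [h9, Set.mem_singleton_iff] at hx
      subst hx
      have h10 := Matrix.eval_charpoly G 0
      rw [map_zero, zero_sub, Matrix.det_neg] at h10
      have h11 : G.det ≠ 0 := by
        intro h
        have h12 := congrArg Matrix.det hGG
        rw [Matrix.det_mul, h, mul_zero, Matrix.det_one] at h12
        exact zero_ne_one h12
      rw [hx0'.eq_zero] at h10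
      exact mul_ne_zero (pow_ne_zero _ (neg_ne_zero.2 one_ne_zero)) h11 h10.symm
    obtain ⟨y, hy⟩ : ∃ y : L, y = a⁻¹ * x := ⟨_, rfl⟩
    have hxy : x = a * y := by rw [hy, ← mul_assoc, mul_inv_cancel₀ ha0, one_mul]
    have hy1 : y ∈ spectrum L G := by
      have h9 : x ∈ (Units.mk0 a ha0) • spectrum L G := by
        rw [← spectrum.unit_smul_eq_smul]
        exact hx
      rw [Set.mem_smul_set] at h9
      obtain ⟨z, hz, hzx⟩ := h9
      have h10 : a * z = a * y := by rw [← hxy, ← hzx]; rfl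
      rw [← mul_left_cancel₀ ha0 h10]
      exact hz
    have hy2 : G.charpoly.IsRoot y := Matrix.mem_spectrum_iff_isRoot_charpoly.1 hy1
    refine ⟨x, y, ?_, ?_, hxy⟩
    · rw [← Polynomial.eval_map_algebraMap, ← Matrix.charpoly_map, ← hG]
      exact hx0'
    · rw [← Polynomial.eval_map_algebraMap, ← Matrix.charpoly_map, ← hG]
      exact hy2
  · rw [← Polynomial.natDegree_pos_iff_degree_pos, G.charpoly_natDegree_eq_dim, Fintype.card_fin]
    exact hn

/-- matrices which commute with a regular semisimple matrix commute -/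
theorem comm_of_sep {g D W : Matrix (Fin n) (Fin n) F} (hs : g.charpoly.Separable)
    (hD : g * D = D * g) (hW : g * W = W * g) : D * W = W * D := by
  classical
  obtain ⟨f, hf⟩ : ∃ f : F →+* AlgebraicClosure F, f = algebraMap F (AlgebraicClosure F) := ⟨_, rfl⟩
  have hfi : Function.Injective f := f.injective
  obtain ⟨x, P, hx, hP, hgP, -⟩ := Pool.Agent.Y929.ZS.exists_diag (g.map f)
    (IsAlgClosed.splits _) (by
      rw [Matrix.charpoly_map]
      exact hs.map)
  have key : ∀ A : Matrix (Fin n) (Fin n) F, g * A = A * g →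
      ∃ d : Fin n → AlgebraicClosure F, A.map f * P = P * diagonal d := by
    intro A hA
    have h1 : g.map f * A.map f = A.map f * g.map f := by
      rw [← Matrix.map_mul, ← Matrix.map_mul, hA]
    obtain ⟨Q, hQ⟩ : ∃ Q, Q = P⁻¹ * (A.map f) * P := ⟨_, rfl⟩
    have hPd : IsUnit P.det := (Matrix.isUnit_iff_isUnit_det P).1 hP
    have hPQ : P * Q = A.map f * P := by
      rw [hQ, ← mul_assoc, ← mul_assoc, Matrix.mul_nonsing_inv _ hPd, one_mul]
    have h2 : diagonal x * Q = Q * diagonal x := by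
      have h3 : P * (diagonal x * Q) = P * (Q * diagonal x) := by
        rw [← mul_assoc, ← hgP, mul_assoc, hPQ, ← mul_assoc, h1, mul_assoc, hgP, ← mul_assoc, ← hPQ,
          mul_assoc]
      have h4 : P⁻¹ * (P * (diagonal x * Q)) = P⁻¹ * (P * (Q * diagonal x)) := by rw [h3]
      rwa [← mul_assoc, Matrix.nonsing_inv_mul _ hPd, one_mul, ← mul_assoc,
        Matrix.nonsing_inv_mul _ hPd, one_mul] at h4
    refine ⟨fun i => Q i i, ?_⟩
    rw [← hPQ]
    congr 1
    ext i j
    by_cases hij : i = j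
    · subst hij
      rw [diagonal_apply_eq]
    · rw [diagonal_apply_ne _ hij]
      have h5 := congrFun (congrFun h2 i) j
      rw [diagonal_mul, mul_diagonal] at h5
      have h6 : (x i - x j) * Q i j = 0 := by
        rw [sub_mul, h5]
        ring
      rcases mul_eq_zero.1 h6 with h7 | h7
      · exact absurd (hx (sub_eq_zero.1 h7)) hij
      · exact h7
  obtain ⟨d, hd⟩ := key D hD
  obtain ⟨e, he⟩ := key W hW
  have h1 : (D * W).map f = (W * D).map f := by
    rw [Matrix.map_mul, Matrix.map_mul]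
    have h2 : D.map f * W.map f * P = W.map f * D.map f * P := by
      rw [mul_assoc, he, ← mul_assoc, hd, mul_assoc, diagonal_mul_diagonal, mul_assoc, hd,
        ← mul_assoc, he, mul_assoc, diagonal_mul_diagonal]
      congr 2
      funext i
      exact mul_comm _ _
    have h3 : D.map f * W.map f * P * P⁻¹ = W.map f * D.map f * P * P⁻¹ := by rw [h2]
    have hPd : IsUnit P.det := (Matrix.isUnit_iff_isUnit_det P).1 hP
    rwa [mul_assoc, Matrix.mul_nonsing_inv _ hPd, mul_one, mul_assoc,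
      Matrix.mul_nonsing_inv _ hPd, mul_one] at h3
  ext i j
  exact hfi (congrFun (congrFun h1 i) j)

/-- a polynomial which is `0` on one block and `1` on the root spaces of another one -/
theorem exists_poly [CharZero F] {m : ℕ} {g : Matrix (Fin m) (Fin m) F}
    {h : Matrix (Fin n) (Fin n) F} (hgs : g.charpoly.Separable) (hgd : g.det ≠ 0) (hhd : h.det ≠ 0)
    (hdis : ∀ x y z u : AlgebraicClosure F, aeval x g.charpoly = 0 → aeval y g.charpoly = 0 →
      aeval z h.charpoly = 0 → aeval u h.charpoly = 0 → x ≠ y → x * u ≠ z * y) :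
    ∃ f : F[X], aeval (ad h) f = 0 ∧ aeval (ad g) ((X - 1) * (1 - f)) = 0 := by
  have hsq : Squarefree (minpoly F (ad g)) := (ad_ss hgd hgs).minpoly_squarefree
  obtain ⟨B, h1, h2, h3⟩ : ∃ B : F[X], minpoly F (ad g) ∣ (X - 1) * B ∧ B ∣ minpoly F (ad g) ∧
      B.eval 1 ≠ 0 := by
    by_cases hr : (minpoly F (ad g)).IsRoot 1
    · obtain ⟨B, hB⟩ := dvd_iff_isRoot.2 hr
      rw [C_1] at hB
      refine ⟨B, by rw [← hB], ⟨X - 1, by rw [hB, mul_comm]⟩, fun h0 => ?_⟩
      obtain ⟨B', hB'⟩ := dvd_iff_isRoot.2 h0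
      rw [C_1] at hB'
      have h4 : (X - 1 : F[X]) * (X - 1) ∣ minpoly F (ad g) := by
        rw [hB, hB']
        exact mul_dvd_mul_left _ ⟨B', rfl⟩
      have h5 := (hsq _ h4)
      have h6 := natDegree_eq_zero_of_isUnit h5
      rw [← C_1, natDegree_X_sub_C] at h6
      exact one_ne_zero h6
    · exact ⟨_, dvd_mul_left _ _, dvd_rfl, hr⟩
  have hco : IsCoprime B (minpoly F (ad h)) := by
    refine (Polynomial.isCoprime_iff_aeval_ne_zero_of_isAlgClosed (k := F) (AlgebraicClosure F)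
      B (minpoly F (ad h))).2 fun a => ?_
    by_contra hcon
    rw [not_or, not_not, not_not] at hcon
    obtain ⟨ha, hb⟩ := hcon
    have ha' : aeval a (minpoly F (ad g)) = 0 := by
      obtain ⟨c, hc⟩ := h2
      rw [hc, map_mul, ha, zero_mul]
    obtain ⟨x, y, hx, hy, hxy⟩ := root_ad hgd ha'
    obtain ⟨z, u, hz, hu, hzu⟩ := root_ad hhd hb
    refine hdis x y z u hx hy hz hu ?_ (by rw [hxy, hzu]; ring)
    intro hxy'
    have hy0 : y ≠ 0 := by
      rintro rfl
      apply hgd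
      rw [Matrix.det_eq_sign_charpoly_coeff]
      have h4 : g.charpoly.coeff 0 = 0 := by
        rw [coeff_zero_eq_aeval_zero]
        have h5 : aeval (0 : AlgebraicClosure F) g.charpoly = algebraMap F _ (aeval (0 : F) g.charpoly) := by
          rw [← Polynomial.aeval_algebraMap_apply, map_zero]
        rw [h5] at hy
        exact (map_eq_zero _).1 hy
      rw [h4, mul_zero]
    have ha1 : a = 1 := by
      rw [hxy'] at hxy
      exact (mul_right_cancel₀ hy0 (by rw [one_mul]; exact hxy)).symm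
    subst ha1
    apply h3
    have h6 : aeval (1 : AlgebraicClosure F) B = algebraMap F _ (aeval (1 : F) B) := by
      rw [← Polynomial.aeval_algebraMap_apply, map_one]
    rw [h6] at ha
    have h7 := (map_eq_zero _).1 ha
    rwa [coe_aeval_eq_eval] at h7
  obtain ⟨u, v, huv⟩ := hco
  refine ⟨v * minpoly F (ad h), ?_, ?_⟩
  · rw [map_mul, minpoly.aeval, mul_zero]
  · have h4 : (X - 1) * (1 - v * minpoly F (ad h)) = (X - 1) * B * u := by
      rw [← huv]
      ring
    rw [h4, map_mul]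
    obtain ⟨c, hc⟩ := h1
    rw [hc, map_mul, minpoly.aeval, zero_mul, zero_mul]

end ad

section gour

variable {F : Type} [Field F] [CharZero F] {I : Type} {N : I → ℕ}

/-- the conjugation of a family -/
noncomputable def adF (g : ∀ i, Matrix (Fin (N i)) (Fin (N i)) F) :
    Module.End F (∀ i, Matrix (Fin (N i)) (Fin (N i)) F) :=
  LinearMap.pi fun i => (ad (g i)) ∘ₗ LinearMap.proj i

theorem aeval_adF (g : ∀ i, Matrix (Fin (N i)) (Fin (N i)) F) (p : F[X])
    (Z : ∀ i, Matrix (Fin (N i)) (Fin (N i)) F) (i : I) :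
    aeval (adF g) p Z i = aeval (ad (g i)) p (Z i) := by
  induction p using Polynomial.induction_on generalizing Z with
  | C b =>
    rw [aeval_C, aeval_C, Algebra.algebraMap_eq_smul_one, Algebra.algebraMap_eq_smul_one]
    rfl
  | add p q hp hq =>
    rw [map_add, map_add, LinearMap.add_apply, LinearMap.add_apply, Pi.add_apply, hp, hq]
  | monomial m b h =>
    rw [pow_succ, ← mul_assoc, map_mul (aeval (adF g)) (C b * Polynomial.X ^ m) Polynomial.X,
      map_mul (aeval (ad (g i))) (C b * Polynomial.X ^ m) Polynomial.X, aeval_X, aeval_X,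
      Module.End.mul_apply, Module.End.mul_apply, h]
    rfl

theorem aeval_mem (𝔤 : Submodule F (∀ i, Matrix (Fin (N i)) (Fin (N i)) F))
    (g : ∀ i, Matrix (Fin (N i)) (Fin (N i)) F)
    (hg : ∀ Z ∈ 𝔤, (fun i => g i * Z i * (g i)⁻¹) ∈ 𝔤) (p : F[X]) :
    ∀ Z ∈ 𝔤, aeval (adF g) p Z ∈ 𝔤 := by
  induction p using Polynomial.induction_on with
  | C b =>
    intro Z hZ
    rw [aeval_C, Algebra.algebraMap_eq_smul_one]
    exact 𝔤.smul_mem b hZ
  | add p q hp hq =>
    intro Z hZ
    rw [map_add, LinearMap.add_apply]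
    exact 𝔤.add_mem (hp Z hZ) (hq Z hZ)
  | monomial m b h =>
    intro Z hZ
    rw [pow_succ, ← mul_assoc, map_mul (aeval (adF g)) (C b * Polynomial.X ^ m) Polynomial.X,
      aeval_X, Module.End.mul_apply]
    refine h _ ?_
    have h1 : adF g Z = fun i => g i * Z i * (g i)⁻¹ := by
      funext i
      exact ad_apply _ _
    rw [h1]
    exact hg Z hZ

/-- **Goursat's lemma**, one pair of indices -/
theorem gour_pair (𝔤 : Submodule F (∀ i, Matrix (Fin (N i)) (Fin (N i)) F))
    (hbr : ∀ X ∈ 𝔤, ∀ Y ∈ 𝔤, (fun i => X i * Y i - Y i * X i) ∈ 𝔤)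
    (g : ∀ i, Matrix (Fin (N i)) (Fin (N i)) F)
    (hg : ∀ Z ∈ 𝔤, (fun i => g i * Z i * (g i)⁻¹) ∈ 𝔤) (i j : I)
    (hs : (g i).charpoly.Separable) (hdi : (g i).det ≠ 0) (hdj : (g j).det ≠ 0)
    (hdis : ∀ x y z u : AlgebraicClosure F, aeval x (g i).charpoly = 0 →
      aeval y (g i).charpoly = 0 → aeval z (g j).charpoly = 0 → aeval u (g j).charpoly = 0 →
      x ≠ y → x * u ≠ z * y) :
    ∀ Z ∈ 𝔤, ∀ W ∈ 𝔤, ∃ Y ∈ 𝔤, Y i = Z i * W i - W i * Z i ∧ Y j = 0 := by
  obtain ⟨f, hf1, hf2⟩ := exists_poly hs hdi hdj hdis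
  have hcom : ∀ Z : ∀ i, Matrix (Fin (N i)) (Fin (N i)) F,
      g i * (Z i - aeval (adF g) f Z i) = (Z i - aeval (adF g) f Z i) * g i := by
    intro Z
    have h1 : aeval (ad (g i)) ((X - 1) * (1 - f)) (Z i) = 0 := by
      rw [hf2, LinearMap.zero_apply]
    rw [map_mul, Module.End.mul_apply, map_sub, map_sub, aeval_X, map_one,
      LinearMap.sub_apply, LinearMap.sub_apply, Module.End.one_apply, Module.End.one_apply,
      ← aeval_adF, ad_apply, sub_eq_zero] at h1
    obtain ⟨D, hD⟩ : ∃ D, D = Z i - aeval (adF g) f Z i := ⟨_, rfl⟩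
    rw [← hD] at h1 ⊢
    calc g i * D = g i * D * ((g i)⁻¹ * g i) := by
          rw [Matrix.nonsing_inv_mul _ (isUnit_iff_ne_zero.2 hdi), mul_one]
      _ = (g i * D * (g i)⁻¹) * g i := by simp only [mul_assoc]
      _ = D * g i := by rw [h1]
  have hz : ∀ Z : ∀ i, Matrix (Fin (N i)) (Fin (N i)) F, aeval (adF g) f Z j = 0 := by
    intro Z
    rw [aeval_adF, hf1, LinearMap.zero_apply]
  intro Z hZ W hW
  have hZ' := aeval_mem 𝔤 g hg f Z hZ
  have hW' := aeval_mem 𝔤 g hg f W hW
  obtain ⟨Z', hZe⟩ : ∃ Z', Z' = aeval (adF g) f Z := ⟨_, rfl⟩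
  obtain ⟨W', hWe⟩ : ∃ W', W' = aeval (adF g) f W := ⟨_, rfl⟩
  have c1 := hcom Z
  have c2 := hcom W
  have z1 := hz Z
  have z2 := hz W
  rw [← hZe] at c1 z1 hZ'
  rw [← hWe] at c2 z2 hW'
  have h1 := hbr Z' hZ' W hW
  have h2 := hbr (Z - Z') (𝔤.sub_mem hZ hZ') W' hW'
  refine ⟨_, 𝔤.add_mem h1 h2, ?_, ?_⟩
  · have h3 := comm_of_sep hs c1 c2
    simp only [Pi.add_apply, Pi.sub_apply]
    have h4 : Z' i * W i - W i * Z' i + ((Z i - Z' i) * W' i - W' i * (Z i - Z' i)) =
        (Z i * W i - W i * Z i) - ((Z i - Z' i) * (W i - W' i) - (W i - W' i) * (Z i - Z' i)) := by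
      noncomm_ring
    rw [h4, h3, sub_self, sub_zero]
  · simp only [Pi.add_apply, Pi.sub_apply]
    rw [z1, z2]
    simp

/-- **Goursat's lemma** -/
theorem gour [DecidableEq I] (𝔤 : Submodule F (∀ i, Matrix (Fin (N i)) (Fin (N i)) F))
    (hbr : ∀ X ∈ 𝔤, ∀ Y ∈ 𝔤, (fun i => X i * Y i - Y i * X i) ∈ 𝔤)
    (s : ∀ i, Set (Matrix (Fin (N i)) (Fin (N i)) F))
    (hproj : ∀ i, ∀ X ∈ s i, ∃ Z ∈ 𝔤, Z i = X)
    (hperf : ∀ i, ∀ X ∈ s i, X ∈ Submodule.span F
      {Z | ∃ Y ∈ s i, ∃ Y' ∈ s i, Z = Y * Y' - Y' * Y})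
    (hgo : ∀ i j, i ≠ j → ∀ Z ∈ 𝔤, ∀ W ∈ 𝔤, ∃ Y ∈ 𝔤, Y i = Z i * W i - W i * Z i ∧ Y j = 0)
    (i : I) (S : Finset I) (hS : i ∉ S) :
    ∀ X ∈ s i, ∃ Z ∈ 𝔤, Z i = X ∧ ∀ j ∈ S, Z j = 0 := by
  induction S using Finset.induction_on with
  | empty =>
    intro X hX
    obtain ⟨Z, hZ, h⟩ := hproj i X hX
    exact ⟨Z, hZ, h, fun j hj => absurd hj (Finset.notMem_empty j)⟩
  | insert j S hj ih =>
    rw [Finset.mem_insert, not_or] at hS
    have ih := ih hS.2
    obtain ⟨V, hV⟩ : ∃ V : Submodule F (Matrix (Fin (N i)) (Fin (N i)) F), ∀ X, X ∈ V ↔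
        ∃ Z ∈ 𝔤, Z i = X ∧ ∀ k ∈ insert j S, Z k = 0 := by
      refine ⟨
        { carrier := {X | ∃ Z ∈ 𝔤, Z i = X ∧ ∀ k ∈ insert j S, Z k = 0}
          add_mem' := ?_
          zero_mem' := ⟨0, 𝔤.zero_mem, rfl, fun _ _ => rfl⟩
          smul_mem' := ?_ }, fun X => Iff.rfl⟩
      · rintro X Y ⟨Z, hZ, rfl, h1⟩ ⟨W, hW, rfl, h2⟩
        exact ⟨Z + W, 𝔤.add_mem hZ hW, rfl, fun k hk => by
          rw [Pi.add_apply, h1 k hk, h2 k hk, add_zero]⟩
      · rintro c X ⟨Z, hZ, rfl, h1⟩
        exact ⟨c • Z, 𝔤.smul_mem c hZ, rfl, fun k hk => by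
          rw [Pi.smul_apply, h1 k hk, smul_zero]⟩
    -- elements with zero component at `j`
    have hjz : ∀ X ∈ s i, ∃ Z ∈ 𝔤, Z i = X ∧ Z j = 0 := by
      obtain ⟨V', hV'⟩ : ∃ V' : Submodule F (Matrix (Fin (N i)) (Fin (N i)) F), ∀ X, X ∈ V' ↔
          ∃ Z ∈ 𝔤, Z i = X ∧ Z j = 0 := by
        refine ⟨
          { carrier := {X | ∃ Z ∈ 𝔤, Z i = X ∧ Z j = 0}
            add_mem' := ?_
            zero_mem' := ⟨0, 𝔤.zero_mem, rfl, rfl⟩
            smul_mem' := ?_ }, fun X => Iff.rfl⟩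
        · rintro X Y ⟨Z, hZ, rfl, h1⟩ ⟨W, hW, rfl, h2⟩
          exact ⟨Z + W, 𝔤.add_mem hZ hW, rfl, by rw [Pi.add_apply, h1, h2, add_zero]⟩
        · rintro c X ⟨Z, hZ, rfl, h1⟩
          exact ⟨c • Z, 𝔤.smul_mem c hZ, rfl, by rw [Pi.smul_apply, h1, smul_zero]⟩
      intro X hX
      refine (hV' X).1 ((Submodule.span_le.2 ?_) (hperf i X hX))
      rintro _ ⟨Y, hY, Y', hY', rfl⟩
      obtain ⟨Z, hZ, rfl⟩ := hproj i Y hY
      obtain ⟨W, hW, rfl⟩ := hproj i Y' hY'
      obtain ⟨T, hT, h1, h2⟩ := hgo i j hS.1 Z hZ W hW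
      exact (hV' _).2 ⟨T, hT, h1, h2⟩
    intro X hX
    refine (hV X).1 ((Submodule.span_le.2 ?_) (hperf i X hX))
    rintro _ ⟨Y, hY, Y', hY', rfl⟩
    obtain ⟨Z, hZ, rfl, h1⟩ := hjz Y hY
    obtain ⟨W, hW, rfl, h2⟩ := ih Y' hY'
    refine (hV _).2 ⟨_, hbr Z hZ W hW, rfl, fun k hk => ?_⟩
    rcases Finset.mem_insert.1 hk with rfl | hk
    · rw [h1, zero_mul, mul_zero, sub_zero]
    · rw [h2 k hk, zero_mul, mul_zero, sub_zero]

end gour

end Pool.Agent.X274.MX
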