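import Pool.Agent.X274.PR.Big
import Pool.Agent.Y497.ZO.LogPow
import Pool.Agent.Y708.ZO.Tan

/-!
# Lifting tangent vectors to a product

Let `Γ` be a compact group and `ρ i` finitely many continuous representations. Every tangent vector
of the image of `ρ i₀` is the component of a tangent vector of the image in the product.
-/

set_option autoImplicit false
set_option linter.unusedSectionVars false

open Matrix Filter Topology
open Pool.Agent.Y142.ZO
open Pool.Agent.X274.PR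

namespace Pool.Agent.X274.MX

section rep

variable {ℓ : ℕ} [Fact ℓ.Prime] {Γ : Type} [Group Γ] {I : Type} [Fintype I] [DecidableEq I]
  {N : I → ℕ} (ρ : ∀ i, Γ →* Matrix (Fin (N i)) (Fin (N i)) ℚ_[ℓ])

/-- the direct sum of the representations -/
noncomputable def bigRep : Γ →* Matrix (Fin (tot N)) (Fin (tot N)) ℚ_[ℓ] where
  toFun γ := big fun i => ρ i γ
  map_one' := by
    rw [← big_one]
    congr 1
    funext i
    exact map_one _
  map_mul' a b := by
    rw [← big_mul]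
    congr 1
    funext i
    exact map_mul _ _ _

theorem bigRep_apply (γ : Γ) : bigRep ρ γ = big fun i => ρ i γ := rfl

theorem continuous_blk (i j : I) : Continuous fun X : Matrix (Fin (tot N)) (Fin (tot N)) ℚ_[ℓ] =>
    blk X i j := by
  refine continuous_matrix fun a b => ?_
  exact (continuous_apply (num N ⟨j, b⟩)).comp (continuous_apply (num N ⟨i, a⟩))

theorem continuous_big : Continuous fun X : ∀ i, Matrix (Fin (N i)) (Fin (N i)) ℚ_[ℓ] => big X := by
  refine continuous_matrix fun a b => ?_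
  obtain ⟨⟨i, a⟩, rfl⟩ := (num N).surjective a
  obtain ⟨⟨j, b⟩, rfl⟩ := (num N).surjective b
  by_cases hij : i = j
  · subst hij
    have : (fun X : ∀ i, Matrix (Fin (N i)) (Fin (N i)) ℚ_[ℓ] =>
        big X (num N ⟨i, a⟩) (num N ⟨i, b⟩)) = fun X => X i a b := by
      funext X
      rw [big_same]
    rw [this]
    exact (continuous_apply b).comp ((continuous_apply a).comp (continuous_apply i))
  · have : (fun X : ∀ i, Matrix (Fin (N i)) (Fin (N i)) ℚ_[ℓ] =>
        big X (num N ⟨i, a⟩) (num N ⟨j, b⟩)) = fun X => 0 := by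
      funext X
      rw [big_ne _ hij]
    rw [this]
    exact continuous_const

theorem continuous_bigRep [TopologicalSpace Γ] (h : ∀ i, Continuous (ρ i)) :
    Continuous (bigRep ρ) := by
  have : (fun γ => bigRep ρ γ) = (fun X : ∀ i, Matrix (Fin (N i)) (Fin (N i)) ℚ_[ℓ] => big X) ∘
      fun γ i => ρ i γ := rfl
  show Continuous fun γ => bigRep ρ γ
  rw [this]
  exact continuous_big.comp (continuous_pi h)

/-- tangent vectors of the image in the product -/
theorem tangent_big {X : ∀ i, Matrix (Fin (N i)) (Fin (N i)) ℚ_[ℓ]} :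
    IsTangent ℓ (bigRep ρ) (big X) ↔
      ∃ σ : ℕ → Γ, ∀ i, Tendsto (fun k : ℕ => ((ℓ : ℚ_[ℓ]) ^ k)⁻¹ • (ρ i (σ k) - 1)) atTop
        (𝓝 (X i)) := by
  have hbig : ∀ (σ : Γ) (k : ℕ), ((ℓ : ℚ_[ℓ]) ^ k)⁻¹ • (bigRep ρ σ - 1) =
      big fun i => ((ℓ : ℚ_[ℓ]) ^ k)⁻¹ • (ρ i σ - 1) := by
    intro σ k
    rw [bigRep_apply, ← big_one, sub_eq_add_neg, ← big_neg, ← big_add, ← big_smul]
    congr 1
    funext i
    simp only [Pi.smul_apply, Pi.add_apply, Pi.neg_apply, Pi.one_apply, sub_eq_add_neg]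
  constructor
  · rintro ⟨σ, hσ⟩
    refine ⟨σ, fun i => ?_⟩
    have h := ((continuous_blk (N := N) i i).tendsto (big X)).comp hσ
    rw [blk_big] at h
    refine h.congr fun k => ?_
    rw [Function.comp_apply, hbig, blk_big]
  · rintro ⟨σ, hσ⟩
    refine ⟨σ, ?_⟩
    have h := ((continuous_big (N := N)).tendsto X).comp (tendsto_pi_nhds.2 hσ)
    refine h.congr fun k => ?_
    rw [Function.comp_apply, hbig]

/-- tangent vectors of the product are block diagonal -/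
theorem tangent_blocks {Z : Matrix (Fin (tot N)) (Fin (tot N)) ℚ_[ℓ]}
    (h : IsTangent ℓ (bigRep ρ) Z) : Z = big fun i => blk Z i i := by
  refine eq_big fun i j hij => ?_
  obtain ⟨σ, hσ⟩ := h
  have h := ((continuous_blk (N := N) i j).tendsto Z).comp hσ
  refine tendsto_nhds_unique h ?_
  refine (tendsto_const_nhds (x := (0 : Matrix (Fin (N i)) (Fin (N j)) ℚ_[ℓ]))).congr fun k => ?_
  rw [Function.comp_apply, bigRep_apply, ← big_one, sub_eq_add_neg, ← big_neg, ← big_add,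
    ← big_smul, blk_big_ne _ hij]

end rep

section lift

open Pool.Agent.Y497.ZO

attribute [local instance] Matrix.normedAddCommGroup Matrix.normedSpace

variable {ℓ : ℕ} [Fact ℓ.Prime] {N : ℕ}

local instance ultra : IsUltrametricDist (Mt ℓ N) :=
  inferInstanceAs (IsUltrametricDist (Fin N → Fin N → ℚ_[ℓ]))

/-- the logarithm is close to the element minus one -/
theorem aj_sub (B : Mt ℓ N) {ε : ℝ} (hε : ε ≤ 1) (h0 : ‖Aj B 0‖ ≤ ε) (j : ℕ) :
    ‖Aj B j - Aj B 0‖ ≤ ε ^ 2 := by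
  have hε0 : 0 ≤ ε := (norm_nonneg _).trans h0
  induction j with
  | zero =>
    rw [sub_self, norm_zero]
    positivity
  | succ j ih =>
    have h1 : Aj B (j + 1) - Aj B 0 = (Aj B (j + 1) - Aj B j) + (Aj B j - Aj B 0) := by abel
    rw [h1]
    refine (IsUltrametricDist.norm_add_le_max _ _).trans (max_le ?_ ih)
    rw [step, add_sub_cancel_left]
    refine IsUltrametricDist.norm_sum_le_of_forall_le_of_nonneg (by positivity) fun m _ => ?_
    rw [norm_smul]
    have hb := bound B hε h0 j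
    have h2 : ‖Aj B j ^ (m + 2)‖ ≤ ε ^ 2 := by
      rw [show m + 2 = (m + 1) + 1 by ring, pow_succ, pow_two]
      refine (nmul _ _).trans (mul_le_mul ?_ hb (norm_nonneg _) hε0)
      exact npow _ hb hε _ (by omega)
    have h3 := coef_norm (ℓ := ℓ) (ℓ.choose (m + 2)) j m
    calc _ ≤ 1 * ε ^ 2 := mul_le_mul (h3.trans (inv_pow_le _)) h2 (norm_nonneg _) zero_le_one
      _ = ε ^ 2 := one_mul _

theorem lim_sub (B A : Mt ℓ N) {ε : ℝ} (hε : ε ≤ 1) (h0 : ‖Aj B 0‖ ≤ ε)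
    (hA : Tendsto (Aj B) atTop (𝓝 A)) : ‖A - Aj B 0‖ ≤ ε ^ 2 :=
  le_of_tendsto ((hA.sub_const _).norm) (Eventually.of_forall fun j => aj_sub B hε h0 j)

variable {Γ : Type} [Group Γ] {I : Type} [Fintype I] [DecidableEq I] {M : I → ℕ}
  (ρ : ∀ i, Γ →* Matrix (Fin (M i)) (Fin (M i)) ℚ_[ℓ])

theorem blk_aj (γ : Γ) (i : I) (j : ℕ) :
    blk (Aj (bigRep ρ γ) j) i i = Aj (ρ i γ) j := by
  unfold Aj
  rw [← map_pow, ← map_pow, bigRep_apply, ← big_one, sub_eq_add_neg, ← big_neg, ← big_add,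
    ← big_smul, blk_big]
  simp only [Pi.smul_apply, Pi.add_apply, Pi.neg_apply, Pi.one_apply, sub_eq_add_neg]

/-- **Lifting of tangent vectors.** -/
theorem lift [TopologicalSpace Γ] [IsTopologicalGroup Γ] [CompactSpace Γ]
    (hρ : ∀ i, Continuous (ρ i)) (i : I) {X : Matrix (Fin (M i)) (Fin (M i)) ℚ_[ℓ]}
    (hX : IsTangent ℓ (ρ i) X) :
    ∃ Z : ∀ i, Matrix (Fin (M i)) (Fin (M i)) ℚ_[ℓ], IsTangent ℓ (bigRep ρ) (big Z) ∧ Z i = X := by
  classical
  obtain ⟨σ, hσ⟩ := hX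
  have hRc := continuous_bigRep ρ hρ
  -- a convergent subsequence
  have hcomp : IsCompact (Set.range (bigRep ρ)) := isCompact_range hRc
  have hfc : FirstCountableTopology (Matrix (Fin (tot M)) (Fin (tot M)) ℚ_[ℓ]) :=
    inferInstanceAs (FirstCountableTopology (Fin (tot M) → Fin (tot M) → ℚ_[ℓ]))
  obtain ⟨_, ⟨σ₀, rfl⟩, φ, hφ, hlim⟩ := hcomp.tendsto_subseq (x := fun k => bigRep ρ (σ k))
    (fun k => ⟨σ k, rfl⟩)
  have hone : Tendsto (fun k => ρ i (σ k)) atTop (𝓝 1) :=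
    Pool.Agent.Y708.ZO.rho_tendsto (ρ i) hσ
  have hσ₀ : ρ i σ₀ = 1 := by
    have h1 := ((continuous_blk (N := M) i i).tendsto _).comp hlim
    rw [bigRep_apply, blk_big] at h1
    refine tendsto_nhds_unique h1 ((hone.comp hφ.tendsto_atTop).congr fun k => ?_)
    rw [Function.comp_apply, Function.comp_apply, Function.comp_apply, bigRep_apply, blk_big]
  -- the corrected sequence
  obtain ⟨τ, hτ⟩ : ∃ τ : ℕ → Γ, ∀ k, τ k = σ₀⁻¹ * σ (φ k) := ⟨_, fun _ => rfl⟩
  have hτi : ∀ k, ρ i (τ k) = ρ i (σ (φ k)) := by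
    intro k
    have h2 : ρ i σ₀⁻¹ = 1 := by
      have h3 : ρ i σ₀⁻¹ * ρ i σ₀ = 1 := by rw [← map_mul, inv_mul_cancel, map_one]
      rwa [hσ₀, mul_one] at h3
    rw [hτ, map_mul, h2, one_mul]
  have hτ1 : Tendsto (fun k => bigRep ρ (τ k)) atTop (𝓝 1) := by
    have h1 := hlim.const_mul (bigRep ρ σ₀⁻¹)
    rw [← map_mul, inv_mul_cancel, map_one] at h1
    refine h1.congr fun k => ?_
    rw [Function.comp_apply, hτ, map_mul]
  -- the logarithms
  have hl2 : (0 : ℝ) < ((ℓ : ℝ) ^ 2)⁻¹ := inv_pos.2 (pow_pos lR_pos 2)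
  have hnear : ∀ᶠ k in atTop, ‖bigRep ρ (τ k) - 1‖ ≤ ((ℓ : ℝ) ^ 2)⁻¹ * 1 := by
    have h1 := (hτ1.sub_const 1).norm
    rw [sub_self, norm_zero] at h1
    rw [mul_one]
    exact (h1.eventually_lt_const hl2).mono fun k hk => hk.le
  obtain ⟨𝔤, h𝔤, -⟩ := Pool.Agent.Y708.ZO.t ℓ _ Γ (bigRep ρ)
  obtain ⟨W, hW⟩ : ∃ W : Submodule ℚ_[ℓ] (Matrix (Fin (M i)) (Fin (M i)) ℚ_[ℓ]),
      ∀ Y, Y ∈ W ↔ ∃ Z ∈ 𝔤, blk Z i i = Y := by
    let bl : Matrix (Fin (tot M)) (Fin (tot M)) ℚ_[ℓ] →ₗ[ℚ_[ℓ]]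
        Matrix (Fin (M i)) (Fin (M i)) ℚ_[ℓ] :=
      { toFun := fun Z => blk Z i i
        map_add' := fun _ _ => rfl
        map_smul' := fun _ _ => rfl }
    refine ⟨𝔤.map bl, fun Y => ?_⟩
    rw [Submodule.mem_map]
    rfl
  have hcl : IsClosed (W : Set (Matrix (Fin (M i)) (Fin (M i)) ℚ_[ℓ])) :=
    Submodule.closed_of_finiteDimensional W
  have hmem : X ∈ W := by
    -- the approximations
    have hA : ∀ k, ∃ A : Mt ℓ (tot M), ‖bigRep ρ (τ k) - 1‖ ≤ ((ℓ : ℝ) ^ 2)⁻¹ * 1 →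
        Tendsto (Aj (bigRep ρ (τ k))) atTop (𝓝 A) := by
      intro k
      by_cases h : ‖bigRep ρ (τ k) - 1‖ ≤ ((ℓ : ℝ) ^ 2)⁻¹ * 1
      · obtain ⟨A, hA⟩ := exists_lim (bigRep ρ (τ k)) (aj_zero _ h)
        exact ⟨A, fun _ => hA⟩
      · exact ⟨0, fun h' => absurd h' h⟩
    choose A hA using hA
    obtain ⟨y, hy⟩ : ∃ y : ℕ → Mt ℓ (M i), ∀ k, y k = Aj (ρ i (τ k)) 0 := ⟨_, fun _ => rfl⟩
    obtain ⟨c, hc⟩ : ∃ c : ℕ → ℚ_[ℓ], ∀ k, c k = (ℓ : ℚ_[ℓ]) ^ 2 * ((ℓ : ℚ_[ℓ]) ^ (φ k))⁻¹ :=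
      ⟨_, fun _ => rfl⟩
    have hcy : Tendsto (fun k => c k • y k) atTop (𝓝 X) := by
      refine (hσ.comp hφ.tendsto_atTop).congr fun k => ?_
      rw [Function.comp_apply, hc, hy, hτi]
      unfold Aj
      rw [smul_smul, pow_zero, pow_one, zero_add]
      congr 1
      field_simp [l_ne (ℓ := ℓ)]
    have hy0 : Tendsto (fun k => ‖y k‖) atTop (𝓝 0) := by
      have h1 : Tendsto (fun k => ρ i (τ k)) atTop (𝓝 1) :=
        (hone.comp hφ.tendsto_atTop).congr fun k => by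
          rw [Function.comp_apply, hτi]
      have h2 := ((h1.sub_const 1).const_smul (((ℓ : ℚ_[ℓ]) ^ 2)⁻¹)).norm
      rw [sub_self, smul_zero, norm_zero] at h2
      refine h2.congr fun k => ?_
      rw [hy]
      unfold Aj
      rw [pow_zero, pow_one, zero_add]
    have hdiff : Tendsto (fun k => c k • (blk (A k) i i - y k)) atTop (𝓝 0) := by
      have h1 : Tendsto (fun k => ‖c k • y k‖ * ‖y k‖) atTop (𝓝 (‖X‖ * 0)) :=
        hcy.norm.mul hy0
      rw [mul_zero] at h1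
      refine squeeze_zero_norm' ?_ h1
      have hy1 : ∀ᶠ k in atTop, ‖y k‖ ≤ 1 :=
        (hy0.eventually_lt_const zero_lt_one).mono fun k hk => hk.le
      filter_upwards [hnear, hy1] with k h2 h3
      have h4 : Tendsto (Aj (ρ i (τ k))) atTop (𝓝 (blk (A k) i i)) := by
        refine (((continuous_blk (N := M) i i).tendsto _).comp (hA k h2)).congr fun j => ?_
        rw [Function.comp_apply, blk_aj]
      have h5 := lim_sub (ρ i (τ k)) (blk (A k) i i) h3 (by rw [hy]) h4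
      rw [norm_smul, norm_smul, mul_assoc, ← pow_two]
      refine mul_le_mul_of_nonneg_left ?_ (norm_nonneg _)
      have e1 : blk (A k) i i - y k = blk (A k) i i - Aj (ρ i (τ k)) 0 := by rw [hy]
      rw [e1]
      exact h5
    have hfin : Tendsto (fun k => c k • blk (A k) i i) atTop (𝓝 X) := by
      have h1 := hdiff.add hcy
      rw [zero_add] at h1
      refine h1.congr fun k => ?_
      rw [← smul_add, sub_add_cancel]
    refine hcl.mem_of_tendsto hfin ?_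
    filter_upwards [hnear] with k hk
    refine W.smul_mem _ ((hW _).2 ⟨A k, ?_, rfl⟩)
    exact (h𝔤 _).2 (aj_tangent (bigRep ρ) (τ k) (A k) (hA k hk))
  obtain ⟨Z, hZ, hZX⟩ := (hW X).1 hmem
  have hZt := (h𝔤 Z).1 hZ
  refine ⟨fun i => blk Z i i, ?_, hZX⟩
  rw [← tangent_blocks ρ hZt]
  exact hZt

end lift

end Pool.Agent.X274.MX
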