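import Pool.Agent.X274.MX.Local

/-!
# The scalars in the Lie algebra of the image, and explicit forms of the products
-/

set_option autoImplicit false
set_option linter.unusedSectionVars false

open Matrix Filter Topology
open Pool.Agent.Y142.ZO Pool.Agent.Y142.ZI
open Pool.Agent.X274.PR

namespace Pool.Agent.X274.MX

section scal

variable {ℓ : ℕ} [Fact ℓ.Prime] {Γ : Type} [Group Γ] {I : Type} [Fintype I] [DecidableEq I]
  {N : I → ℕ}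

/-- the representation with the character `χ` as a further component -/
noncomputable def ext (ρ : ∀ i, Γ →* Matrix (Fin (N i)) (Fin (N i)) ℚ_[ℓ]) (χ : Γ →* ℚ_[ℓ]) :
    ∀ o : Option I, Γ →* Matrix (Fin (o.elim 1 N)) (Fin (o.elim 1 N)) ℚ_[ℓ]
  | none => ((Matrix.scalar (Fin 1) : ℚ_[ℓ] →+* Matrix (Fin 1) (Fin 1) ℚ_[ℓ]) :
      ℚ_[ℓ] →* Matrix (Fin 1) (Fin 1) ℚ_[ℓ]).comp χ
  | some i => ρ i

theorem ext_none (ρ : ∀ i, Γ →* Matrix (Fin (N i)) (Fin (N i)) ℚ_[ℓ]) (χ : Γ →* ℚ_[ℓ]) (γ : Γ) :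
    ext ρ χ none γ = Matrix.scalar (Fin 1) (χ γ) := rfl

/-- the derivative of the multiplier -/
theorem deriv_gen {n : ℕ} {ρ : Γ →* Matrix (Fin n) (Fin n) ℚ_[ℓ]}
    {J Z : Matrix (Fin n) (Fin n) ℚ_[ℓ]} {c : ℕ → ℚ_[ℓ]} {M : ℚ_[ℓ]} {σ : ℕ → Γ}
    (hmul : ∀ k, (ρ (σ k))ᵀ * J * ρ (σ k) = c k • J)
    (hσ : Tendsto (fun k : ℕ => ((ℓ : ℚ_[ℓ]) ^ k)⁻¹ • (ρ (σ k) - 1)) atTop (𝓝 Z))
    (hc : Tendsto (fun k : ℕ => ((ℓ : ℚ_[ℓ]) ^ k)⁻¹ * (c k - 1)) atTop (𝓝 M)) :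
    Zᵀ * J + J * Z = M • J := by
  have hpow := Pool.Agent.Y708.ZO.pow_tendsto (ℓ := ℓ)
  have h1 : Tendsto (fun k : ℕ => (((ℓ : ℚ_[ℓ]) ^ k)⁻¹ • (ρ (σ k) - 1))ᵀ * J +
      J * (((ℓ : ℚ_[ℓ]) ^ k)⁻¹ • (ρ (σ k) - 1)) + (ℓ : ℚ_[ℓ]) ^ k •
      ((((ℓ : ℚ_[ℓ]) ^ k)⁻¹ • (ρ (σ k) - 1))ᵀ * J * (((ℓ : ℚ_[ℓ]) ^ k)⁻¹ • (ρ (σ k) - 1))))
      atTop (𝓝 (Zᵀ * J + J * Z + (0 : ℚ_[ℓ]) • (Zᵀ * J * Z))) := by
    have ht : Tendsto (fun k : ℕ => (((ℓ : ℚ_[ℓ]) ^ k)⁻¹ • (ρ (σ k) - 1))ᵀ) atTop (𝓝 Zᵀ) :=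
      ((continuous_id.matrix_transpose).tendsto Z).comp hσ
    exact ((ht.mul_const J).add (hσ.const_mul J)).add (hpow.smul ((ht.mul_const J).mul hσ))
  rw [zero_smul, add_zero] at h1
  have h3 : Tendsto (fun k : ℕ => (((ℓ : ℚ_[ℓ]) ^ k)⁻¹ * (c k - 1)) • J) atTop (𝓝 (M • J)) :=
    hc.smul_const J
  refine tendsto_nhds_unique h1 (h3.congr fun k => ?_)
  have h6 := hmul k
  have hne : (ℓ : ℚ_[ℓ]) ^ k ≠ 0 := pow_ne_zero _ Pool.Agent.Y708.ZO.ell_ne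
  obtain ⟨A, hA⟩ : ∃ A, A = ((ℓ : ℚ_[ℓ]) ^ k)⁻¹ • (ρ (σ k) - 1) := ⟨_, rfl⟩
  have h7 : ρ (σ k) = 1 + (ℓ : ℚ_[ℓ]) ^ k • A := by
    rw [hA, smul_smul, mul_inv_cancel₀ hne, one_smul, add_sub_cancel]
  rw [← hA]
  have h9 : (((ℓ : ℚ_[ℓ]) ^ k)⁻¹ * (c k - 1)) • J = ((ℓ : ℚ_[ℓ]) ^ k)⁻¹ • (c k • J - J) := by
    rw [mul_smul, sub_smul, one_smul]
  rw [h9, ← h6, h7, transpose_add, transpose_one, transpose_smul]
  have h10 : (1 + (ℓ : ℚ_[ℓ]) ^ k • Aᵀ) * J * (1 + (ℓ : ℚ_[ℓ]) ^ k • A) - J =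
      (ℓ : ℚ_[ℓ]) ^ k • (Aᵀ * J + J * A + (ℓ : ℚ_[ℓ]) ^ k • (Aᵀ * J * A)) := by
    simp only [add_mul, mul_add, one_mul, mul_one, smul_mul_assoc, mul_smul_comm, smul_add,
      smul_smul]
    abel
  rw [h10, smul_smul, inv_mul_cancel₀ hne, one_smul]

/-- the derivative of an integral power -/
theorem deriv_zpow {c : ℕ → ℚ_[ℓ]} {m : ℚ_[ℓ]}
    (hc : Tendsto (fun k : ℕ => ((ℓ : ℚ_[ℓ]) ^ k)⁻¹ * (c k - 1)) atTop (𝓝 m)) (w : ℤ) :
    Tendsto (fun k : ℕ => ((ℓ : ℚ_[ℓ]) ^ k)⁻¹ * (c k ^ w - 1)) atTop (𝓝 ((w : ℚ_[ℓ]) * m)) := by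
  have hpow := Pool.Agent.Y708.ZO.pow_tendsto (ℓ := ℓ)
  have hc1 : Tendsto c atTop (𝓝 1) := by
    have h2 := (hpow.mul hc).const_add 1
    rw [zero_mul, add_zero] at h2
    refine h2.congr fun k => ?_
    rw [← mul_assoc, mul_inv_cancel₀ (pow_ne_zero _ Pool.Agent.Y708.ZO.ell_ne), one_mul]
    ring
  have hnat : ∀ w : ℕ, Tendsto (fun k : ℕ => ((ℓ : ℚ_[ℓ]) ^ k)⁻¹ * (c k ^ w - 1)) atTop
      (𝓝 ((w : ℚ_[ℓ]) * m)) := by
    intro w
    have h4 : Tendsto (fun k : ℕ => ∑ l ∈ Finset.range w, c k ^ l) atTop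
        (𝓝 (∑ l ∈ Finset.range w, (1 : ℚ_[ℓ]) ^ l)) :=
      tendsto_finsetSum _ fun l _ => hc1.pow l
    have h5 : (∑ l ∈ Finset.range w, (1 : ℚ_[ℓ]) ^ l) = w := by simp
    rw [h5] at h4
    refine (h4.mul hc).congr fun k => ?_
    rw [← geom_sum_mul (c k) w]
    ring
  obtain ⟨n, rfl | rfl⟩ := w.eq_nat_or_neg
  · simpa using hnat n
  · have h6 : Tendsto (fun k : ℕ => -(c k ^ n)⁻¹ * (((ℓ : ℚ_[ℓ]) ^ k)⁻¹ * (c k ^ n - 1))) atTop
        (𝓝 (-((1 : ℚ_[ℓ]) ^ n)⁻¹ * ((n : ℚ_[ℓ]) * m))) :=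
      (((hc1.pow n).inv₀ (pow_ne_zero _ one_ne_zero)).neg).mul (hnat n)
    have h7 : -((1 : ℚ_[ℓ]) ^ n)⁻¹ * ((n : ℚ_[ℓ]) * m) = (((-(n : ℤ)) : ℤ) : ℚ_[ℓ]) * m := by
      rw [one_pow, inv_one, Int.cast_neg, Int.cast_natCast]
      ring
    rw [h7] at h6
    refine h6.congr' ?_
    have h8 : ∀ᶠ k in atTop, c k ≠ 0 := hc1.eventually_ne one_ne_zero
    filter_upwards [h8] with k hk
    rw [_root_.zpow_neg, zpow_natCast]
    have h9 : (c k ^ n) ≠ 0 := pow_ne_zero _ hk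
    field_simp
    ring

theorem scal [TopologicalSpace Γ] [IsTopologicalGroup Γ] [CompactSpace Γ]
    {ρ : ∀ i, Γ →* Matrix (Fin (N i)) (Fin (N i)) ℚ_[ℓ]} (hρ : ∀ i, Continuous (ρ i))
    {χ : Γ →* ℚ_[ℓ]} (hχ : Continuous χ) {w : I → ℤ}
    {J : ∀ i, Matrix (Fin (N i)) (Fin (N i)) ℚ_[ℓ]}
    (hmul : ∀ i γ, (ρ i γ)ᵀ * J i * ρ i γ = (χ γ) ^ (w i) • J i) (τ : Γ)
    (hτ : ∀ n : ℕ, 0 < n → χ τ ^ n ≠ 1) :
    ∃ (Z : ∀ i, Matrix (Fin (N i)) (Fin (N i)) ℚ_[ℓ]) (m : ℚ_[ℓ]), m ≠ 0 ∧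
      IsTangent ℓ (bigRep ρ) (big Z) ∧
      ∀ i, (Z i)ᵀ * J i + J i * Z i = ((w i : ℚ_[ℓ]) * m) • J i := by
  classical
  have hc : ∀ o, Continuous (ext ρ χ o) := by
    intro o
    cases o with
    | none =>
      show Continuous fun γ => Matrix.scalar (Fin 1) (χ γ)
      refine continuous_matrix fun a b => ?_
      simp only [Matrix.scalar_apply, Matrix.diagonal_apply]
      by_cases hab : a = b
      · simpa [hab] using hχ
      · simpa [hab] using continuous_const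
    | some i => exact hρ i
  obtain ⟨⟨U, hU, hnear⟩, hpow⟩ := Pool.Agent.Y497.ZO.pow ℓ _ Γ (bigRep (ext ρ χ))
    (continuous_bigRep _ hc)
  obtain ⟨n, hn, hnU⟩ := hpow U hU τ
  obtain ⟨⟨X, hX, hker⟩, -⟩ := Pool.Agent.Y497.ZO.log ℓ _ Γ (bigRep (ext ρ χ)) (τ ^ n)
    (hnear _ hnU)
  have hXb := tangent_blocks (ext ρ χ) hX
  have hXt := hX
  rw [hXb, tangent_big] at hXt
  obtain ⟨σ, hσ⟩ := hXt
  obtain ⟨x, hx⟩ : ∃ x, x = (dec ℚ_[ℓ] (fun o : Option I => o.elim 1 N)).symm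
      (Pi.single none (fun _ => 1)) := ⟨_, rfl⟩
  obtain ⟨B, hB⟩ : ∃ B : Matrix (Fin 1) (Fin 1) ℚ_[ℓ], B = blk X none none := ⟨_, rfl⟩
  obtain ⟨Z, hZ⟩ : ∃ Z : ∀ i, Matrix (Fin (N i)) (Fin (N i)) ℚ_[ℓ],
      Z = fun i => blk X (some i) (some i) := ⟨_, rfl⟩
  have hm : B 0 0 ≠ 0 := by
    intro h0
    have h1 : X *ᵥ x = 0 := by
      rw [hXb]
      apply (dec ℚ_[ℓ] (fun o : Option I => o.elim 1 N)).injective
      funext o
      rw [dec_mulVec, map_zero, hx, LinearEquiv.apply_symm_apply]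
      cases o with
      | none =>
        rw [Pi.single_eq_same]
        have h2 : B *ᵥ (fun _ => (1 : ℚ_[ℓ])) = 0 := by
          funext a
          have ha : a = 0 := Subsingleton.elim _ _
          subst ha
          show ∑ b : Fin 1, B 0 b * 1 = (0 : ℚ_[ℓ])
          rw [Fin.sum_univ_one, h0, zero_mul]
        rw [hB] at h2
        exact h2
      | some i =>
        rw [Pi.single_eq_of_ne (by simp), mulVec_zero]
        rfl
    have h2 := (hker x).1 h1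
    have h3 : dec ℚ_[ℓ] (fun o : Option I => o.elim 1 N)
        (bigRep (ext ρ χ) (τ ^ n) *ᵥ x) none = dec ℚ_[ℓ] (fun o : Option I => o.elim 1 N) x none := by
      rw [h2]
    rw [bigRep_apply, dec_mulVec, hx, LinearEquiv.apply_symm_apply, Pi.single_eq_same] at h3
    have h5 : (Matrix.scalar (Fin 1) (χ (τ ^ n)) *ᵥ fun _ => (1 : ℚ_[ℓ])) (0 : Fin 1) =
        χ τ ^ n := by
      rw [map_pow]
      show ∑ b : Fin 1, _ = _
      rw [Fin.sum_univ_one]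
      simp [Matrix.scalar_apply]
    have h4 : (Matrix.scalar (Fin 1) (χ (τ ^ n)) *ᵥ fun _ => (1 : ℚ_[ℓ])) (0 : Fin 1) = 1 :=
      congrFun h3 (0 : Fin 1)
    rw [h5] at h4
    exact hτ n hn h4
  have hσs : ∀ i, Tendsto (fun k : ℕ => ((ℓ : ℚ_[ℓ]) ^ k)⁻¹ • (ρ i (σ k) - 1)) atTop (𝓝 (Z i)) := by
    intro i
    rw [hZ]
    exact hσ (some i)
  refine ⟨Z, B 0 0, hm, (tangent_big ρ).2 ⟨σ, hσs⟩, fun i => ?_⟩
  refine deriv_gen (fun k => hmul i (σ k)) (hσs i) (deriv_zpow ?_ (w i))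
  have hσn : Tendsto (fun k : ℕ => ((ℓ : ℚ_[ℓ]) ^ k)⁻¹ • (Matrix.scalar (Fin 1) (χ (σ k)) - 1))
      atTop (𝓝 B) := by
    rw [hB]
    exact hσ none
  have h1 := (((continuous_apply (0 : Fin 1)).comp (continuous_apply (0 : Fin 1))).tendsto
    B).comp hσn
  refine h1.congr fun k => ?_
  show ((ℓ : ℚ_[ℓ]) ^ k)⁻¹ * ((Matrix.scalar (Fin 1) (χ (σ k)) - 1 :
    Matrix (Fin 1) (Fin 1) ℚ_[ℓ]) 0 0) = _
  simp [Matrix.scalar_apply]

end scal

section conv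

variable {F : Type} [Field F] {I : Type} {N : I → ℕ} {k : ℕ}

/-- one pairing -/
def pr {E : I → Type} (ε : ∀ i, E i → Matrix (Fin (N i)) (Fin (N i)) F)
    (J : ∀ i, Matrix (Fin (N i)) (Fin (N i)) F) (p : Σ i, E i) (x y : ∀ i, Fin (N i) → F) : F :=
  (ε p.1 p.2 *ᵥ x p.1) ⬝ᵥ J p.1 *ᵥ y p.1

theorem con_explicit {E : I → Type} (ε : ∀ i, E i → Matrix (Fin (N i)) (Fin (N i)) F)
    {J : ∀ i, Matrix (Fin (N i)) (Fin (N i)) F} (p₀ : Σ i, E i) {A : Finset (Fin k)}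
    {f : Fun F N k} (h : Con J (fun i => Set.range (ε i)) A f) :
    ∃ (π : Equiv.Perm (Fin k)) (b : Fin k → Σ i, E i), (∀ j, π (π j) = j) ∧
      (∀ j, π j ≠ j ↔ j ∈ A) ∧ ∀ v, f v = ∏ j with j < π j, pr ε J (b j) (v j) (v (π j)) := by
  induction h with
  | one =>
    refine ⟨1, fun _ => p₀, fun _ => rfl, fun j => ?_, fun v => ?_⟩
    · simp
    · have : (Finset.univ.filter fun j : Fin k => j < (1 : Equiv.Perm (Fin k)) j) = ∅ := by
        ext j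
        simp
      rw [this, Finset.prod_empty]
  | @mul A f i a ha j j' hlt hj hj' hf ih =>
    obtain ⟨π, b, h1, h2, h3⟩ := ih
    obtain ⟨a, rfl⟩ := ha
    have hπj : π j = j := by
      by_contra h
      exact hj ((h2 j).1 h)
    have hπj' : π j' = j' := by
      by_contra h
      exact hj' ((h2 j').1 h)
    have e1 : (π * Equiv.swap j j') j = j' := by
      rw [Equiv.Perm.mul_apply, Equiv.swap_apply_left, hπj']
    have e2 : (π * Equiv.swap j j') j' = j := by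
      rw [Equiv.Perm.mul_apply, Equiv.swap_apply_right, hπj]
    have e3 : ∀ l, l ≠ j → l ≠ j' → (π * Equiv.swap j j') l = π l := by
      intro l h4 h5
      rw [Equiv.Perm.mul_apply, Equiv.swap_apply_of_ne_of_ne h4 h5]
    refine ⟨π * Equiv.swap j j', Function.update b j ⟨i, a⟩, fun l => ?_, fun l => ?_, fun v => ?_⟩
    · by_cases hl : l = j
      · rw [hl, e1, e2]
      · by_cases hl' : l = j'
        · rw [hl', e2, e1]
        · rw [e3 l hl hl', e3, h1]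
          · intro h
            apply hl
            rw [← h1 l, h, hπj]
          · intro h
            apply hl'
            rw [← h1 l, h, hπj']
    · rw [Finset.mem_insert, Finset.mem_insert]
      by_cases hl : l = j
      · rw [hl, e1]
        simp [hlt.ne']
      · by_cases hl' : l = j'
        · rw [hl', e2]
          simp [hlt.ne]
        · rw [e3 l hl hl', h2]
          simp [hl, hl']
    · have hfil : (Finset.univ.filter fun l : Fin k => l < (π * Equiv.swap j j') l) =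
          insert j (Finset.univ.filter fun l : Fin k => l < π l) := by
        ext l
        rw [Finset.mem_insert, Finset.mem_filter, Finset.mem_filter]
        by_cases hl : l = j
        · rw [hl, e1]
          simp [hlt]
        · by_cases hl' : l = j'
          · rw [hl', e2, hπj']
            simp [hlt.ne', not_lt.2 hlt.le]
          · rw [e3 l hl hl']
            simp [hl]
      have hnot : j ∉ (Finset.univ.filter fun l : Fin k => l < π l) := by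
        rw [Finset.mem_filter, hπj]
        simp
      rw [hfil, Finset.prod_insert hnot, Function.update_self, e1]
      show _ * f v = _
      rw [h3]
      congr 1
      refine Finset.prod_congr rfl fun l hl => ?_
      have hlj : l ≠ j := by
        rintro rfl
        exact hnot hl
      rw [Function.update_of_ne hlj]
      by_cases hl' : l = j'
      · rw [Finset.mem_filter, hl', hπj'] at hl
        exact absurd hl.2 (lt_irrefl _)
      · rw [e3 l hlj hl']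

end conv

end Pool.Agent.X274.MX
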